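import Mathlib

/-! Functions on cells that are invariant under all moves come from an abelian quotient. -/

set_option autoImplicit false
set_option linter.unusedSectionVars false

namespace Pool.Agent.Lib.MP_356f68_co.Win

open Finset Function

variable {α : Type} [Fintype α] [DecidableEq α]

/-- Latin squares -/
structure Lq (L : α → α → α) : Prop where
  row : ∀ r, Bijective (L r)
  col : ∀ c, Bijective (fun r => L r c)

/-- the move with row `x` and column `y` takes the cell `u` to the cell `v` -/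
def Mv (L : α → α → α) (x y : α) (u v : α × α) : Prop :=
  L v.1 y = L x u.2 ∧ L x v.2 = L u.1 y

lemma Mv.symm {L : α → α → α} {x y : α} {u v : α × α} (h : Mv L x y u v) : Mv L x y v u :=
  ⟨h.2.symm, h.1.symm⟩

/-- functions that no move changes -/
def Inv (L : α → α → α) (g : α × α → ℝ) : Prop := ∀ x y u v, Mv L x y u v → g u = g v

section loop

variable {m : α → α → α} {e : α}

lemma i_symm (h1 : ∀ a, m e a = a) (h2 : ∀ a, m a e = a) {g : α × α → ℝ} (hg : Inv m g)
    (a b : α) : g (a, b) = g (b, a) :=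
  hg e e _ _ ⟨by simp [h1, h2], by simp [h1, h2]⟩

lemma i_left (h1 : ∀ a, m e a = a) (h2 : ∀ a, m a e = a) {g : α × α → ℝ} (hg : Inv m g)
    (p u w : α) : g (m p u, w) = g (u, m p w) :=
  (hg p e (m p u, w) (m p w, u) ⟨by simp [h2], by simp [h2]⟩).trans (i_symm h1 h2 hg _ _)

lemma i_right (h1 : ∀ a, m e a = a) (h2 : ∀ a, m a e = a) {g : α × α → ℝ} (hg : Inv m g)
    (q u w : α) : g (u, m w q) = g (m u q, w) :=
  (hg e q (u, m w q) (w, m u q) ⟨by simp [h1], by simp [h1]⟩).trans (i_symm h1 h2 hg _ _)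

/-- the congruence -/
def cg (m : α → α → α) : Setoid α where
  r a b := ∀ g, Inv m g → ∀ u, g (u, a) = g (u, b)
  iseqv := ⟨fun _ _ _ _ => rfl, fun h g hg u => (h g hg u).symm,
    fun h h' g hg u => (h g hg u).trans (h' g hg u)⟩

lemma cg_mul (h1 : ∀ a, m e a = a) (h2 : ∀ a, m a e = a) {a b a' b' : α} (h : (cg m).r a b)
    (h' : (cg m).r a' b') : (cg m).r (m a a') (m b b') := by
  intro g hg u
  rw [i_right h1 h2 hg, h g hg, ← i_right h1 h2 hg, ← i_left h1 h2 hg, h' g hg, i_left h1 h2 hg]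

lemma cg_assoc (hm : Lq m) (h1 : ∀ a, m e a = a) (h2 : ∀ a, m a e = a) (p z q : α) :
    (cg m).r (m (m p z) q) (m p (m z q)) := by
  obtain ⟨w, hw⟩ := (hm.col q).2 (m p (m z q))
  have : (cg m).r (m p z) w := by
    intro g hg u
    obtain ⟨a, ha⟩ := (hm.col q).2 (m p u)
    have k := hg p q (a, m z q) (w, u) ⟨hw, ha.symm⟩
    simp only at ha
    rw [i_right h1 h2 hg, ha, i_left h1 h2 hg, i_symm h1 h2 hg w u] at k
    exact k
  simp only at hw
  rw [← hw]
  exact cg_mul h1 h2 this ((cg m).iseqv.refl q)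

lemma cg_comm (hm : Lq m) (h1 : ∀ a, m e a = a) (h2 : ∀ a, m a e = a) (a b : α) :
    (cg m).r (m a b) (m b a) := by
  intro g hg w
  calc g (w, m a b) = g (m (m a b) e, w) := by rw [h2, i_symm h1 h2 hg]
    _ = g (e, m a (m b w)) := by rw [i_left h1 h2 hg, cg_assoc hm h1 h2 a b w g hg]
    _ = g (w, m b a) := by
        rw [← i_left h1 h2 hg, h2, ← i_left h1 h2 hg, i_symm h1 h2 hg]

lemma loop_labels (hm : Lq m) (h1 : ∀ a, m e a = a) (h2 : ∀ a, m a e = a) :
    ∃ (A : Type) (_ : AddCommGroup A) (σ : α → A), (∀ a b, σ a + σ b = σ (m a b)) ∧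
      ∀ a b, σ a = σ b → (cg m).r a b := by
  let M : CommMonoid (Quotient (cg m)) :=
    { mul := Quotient.map₂ m fun _ _ h _ _ h' => cg_mul h1 h2 h h'
      mul_assoc := fun a b c => Quotient.inductionOn₃ a b c fun a b c =>
        Quotient.sound (cg_assoc hm h1 h2 a b c)
      one := Quotient.mk _ e
      one_mul := fun a => Quotient.inductionOn a fun a => congrArg (Quotient.mk _) (h1 a)
      mul_one := fun a => Quotient.inductionOn a fun a => congrArg (Quotient.mk _) (h2 a)
      mul_comm := fun a b => Quotient.inductionOn₂ a b fun a b =>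
        Quotient.sound (cg_comm hm h1 h2 a b) }
  let G : CommGroup (Quotient (cg m)) := commGroupOfIsUnit fun a =>
    Quotient.inductionOn a fun a => by
      obtain ⟨b, hb⟩ := (hm.row a).2 e
      exact IsUnit.of_mul_eq_one (Quotient.mk _ b) (congrArg (Quotient.mk _) hb)
  exact ⟨Additive (Quotient (cg m)), inferInstance, fun a => Additive.ofMul (Quotient.mk _ a),
    fun a b => rfl, fun a b h => Quotient.exact (Additive.ofMul.injective h)⟩

end loop

theorem labels [Nonempty α] {L : α → α → α} (hL : Lq L) :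
    ∃ (A : Type) (_ : AddCommGroup A) (φ ψ σ : α → A), (∀ r c, φ r + ψ c = σ (L r c)) ∧
      ∀ u v : α × α, σ (L u.1 u.2) = σ (L v.1 v.2) → ∀ g, Inv L g → g u = g v := by
  obtain ⟨o⟩ := ‹Nonempty α›
  let ρ := Equiv.ofBijective _ (hL.col o)
  let γ := Equiv.ofBijective _ (hL.row o)
  have hρ : ∀ r, ρ.symm (L r o) = r := fun r => ρ.symm_apply_apply r
  have hγ : ∀ c, γ.symm (L o c) = c := fun c => γ.symm_apply_apply c
  let m : α → α → α := fun a b => L (ρ.symm a) (γ.symm b)
  have h1 : ∀ a, m (L o o) a = a := fun a => by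
    simp only [m, hρ]; exact γ.apply_symm_apply a
  have h2 : ∀ a, m a (L o o) = a := fun a => by
    simp only [m, hγ]; exact ρ.apply_symm_apply a
  have hm : Lq m := ⟨fun a => (hL.row _).comp γ.symm.bijective,
    fun b => (hL.col _).comp ρ.symm.bijective⟩
  obtain ⟨A, iA, σ, s1, s2⟩ := loop_labels hm h1 h2
  refine ⟨A, iA, fun r => σ (L r o), fun c => σ (L o c), σ, fun r c => by
    rw [s1]; simp only [m, hρ, hγ], fun u v h g hg => ?_⟩
  have hg' : Inv m (fun p => g (ρ.symm p.1, γ.symm p.2)) := fun x y a b hab =>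
    hg (ρ.symm x) (γ.symm y) _ _ hab
  have k : ∀ u : α × α, g u = g (ρ.symm (L o o), γ.symm (L u.1 u.2)) := fun u => by
    have := i_left h1 h2 hg' (L u.1 o) (L o o) (L o u.2)
    rw [h2] at this
    simpa only [m, hρ, hγ] using this
  rw [k u, k v]
  exact s2 _ _ h _ hg' (L o o)

/-- for odd order there is no parity obstruction -/
theorem odd_sum {L : α → α → α} (hL : Lq L) (hn : Odd (Fintype.card α)) {A : Type}
    [AddCommGroup A] (φ ψ σ : α → A) (h : ∀ r c, φ r + ψ c = σ (L r c)) :
    ∑ r, φ r + ∑ c, ψ c = ∑ s, σ s := by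
  have : Nonempty α := Fintype.card_pos_iff.1 hn.pos
  obtain ⟨o⟩ := this
  have h1 : ∀ r, Fintype.card α • φ r + ∑ c, ψ c = ∑ s, σ s := fun r => by
    rw [← (hL.row r).sum_comp σ]
    simp only [← h, sum_add_distrib, sum_const, card_univ]
  have h2 : ∑ r, φ r + Fintype.card α • ψ o = ∑ s, σ s := by
    rw [← (hL.col o).sum_comp σ]
    simp only [← h, sum_add_distrib, sum_const, card_univ]
  choose c hc using fun r => (hL.row r).2 (L o o)
  have hb : Bijective c := Finite.injective_iff_bijective.1 fun r r' e =>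
    (hL.col (c r)).1 ((hc r).trans (e ▸ (hc r').symm))
  have h3 : ∑ r, φ r + ∑ c, ψ c = Fintype.card α • (φ o + ψ o) := by
    rw [← hb.sum_comp ψ, ← sum_add_distrib]
    simp only [h, hc, sum_const, card_univ]
  set d := ∑ r, φ r - Fintype.card α • φ o with hd
  have h4 : 2 • d = 0 := by
    have := h1 o
    rw [smul_add] at h3
    rw [two_smul, hd]
    linear_combination (norm := abel) h3 + h2 - this
  have h5 : Fintype.card α • d = 0 := by
    have : ∀ r, Fintype.card α • φ r = Fintype.card α • φ o := fun r =>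
      add_right_cancel ((h1 r).trans (h1 o).symm)
    rw [hd, smul_sub, smul_sum]
    simp only [this, sum_const, card_univ, sub_self]
  obtain ⟨k, hk⟩ := hn
  rw [hk, add_smul, mul_comm, mul_smul, h4, smul_zero, zero_add, one_smul, hd, sub_eq_zero] at h5
  rw [h5, h1]

end Pool.Agent.Lib.MP_356f68_co.Win
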