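import Mathlib
import Pool.Agent.Lib.MP_901e0d_co.Rbs.Wit

/-! Mixing inside the classes cut out by invariant functions. -/

set_option autoImplicit false
set_option linter.unusedSectionVars false

namespace Pool.Agent.Lib.MP_356f68_co.Win

open Finset Pool.Agent.Lib.MP_356f68_co.Cube Pool.Agent.Lib.MP_901e0d_co.Rbs

section

variable {V P : Type} [Fintype V] [DecidableEq V] [Fintype P] (κ : Ker V P)

lemma var_lazy (hl : ∀ u, 1 / 2 ≤ κ.K u u) (f : V → ℝ) (u : V) :
    (∑ v, κ.K u v * f v) ^ 2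
      ≤ ∑ v, κ.K u v * f v ^ 2 - 1 / 3 * ∑ v, κ.K u v * (f u - f v) ^ 2 := by
  have e : ∀ a : ℝ, ∑ v, κ.K u v * (a - f v) ^ 2
      = a ^ 2 - 2 * a * ∑ v, κ.K u v * f v + ∑ v, κ.K u v * f v ^ 2 := by
    intro a
    have : ∀ v, κ.K u v * (a - f v) ^ 2
        = κ.K u v * a ^ 2 - 2 * a * (κ.K u v * f v) + κ.K u v * f v ^ 2 := fun v => by ring
    simp only [this, sum_add_distrib, sum_sub_distrib, ← sum_mul, ← mul_sum, κ.K_sum, one_mul]
  set m := ∑ v, κ.K u v * f v
  have h1 := single_le_sum (f := fun v => κ.K u v * (m - f v) ^ 2)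
    (fun v _ => mul_nonneg (κ.K_nonneg u v) (sq_nonneg _)) (mem_univ u)
  have h2 := mul_le_mul_of_nonneg_right (hl u) (sq_nonneg (m - f u))
  rw [e] at h1 ⊢
  nlinarith

lemma tv_gap (hl : ∀ u, 1 / 2 ≤ κ.K u u) (G : (V → ℝ) → Prop)
    (hG : ∀ g, G g → ∀ u, ∑ v, κ.K u v * g v = g u) {η : ℝ} (h0 : 0 ≤ η) (h1 : η ≤ 1)
    (hP : ∀ f : V → ℝ, (∀ g, G g → ∑ v, f v * g v = 0) →
      η * ∑ v, f v ^ 2 ≤ ∑ u, ∑ v, κ.K u v * (f u - f v) ^ 2) {a0 t : ℕ}
    (ha : Fintype.card V * (1 - η / 3) ^ a0 ≤ 1 / 200) (ht : a0 ≤ t) {u v : V}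
    (huv : ∀ g, G g → g u = g v) : κ.tv t u v ≤ 1 / 10 := by
  set f : ℕ → V → ℝ := fun s w => κ.k s v w - κ.k (s + 1) u w with hf
  have e : ∀ s w, f (s + 1) w = ∑ x, κ.K w x * f s x := by
    intro s w
    simp only [hf, mul_sub, sum_sub_distrib]
    rw [κ.k_symm (s + 1) v w, κ.k_symm (s + 1 + 1) u w, κ.k_succ s, κ.k_succ (s + 1)]
    congr 1 <;> exact sum_congr rfl fun x _ => by rw [κ.k_symm _ x]
  have g1 : ∀ s g, G g → ∑ w, f s w * g w = 0 := by
    intro s g hg
    induction s with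
    | zero =>
      simp only [hf, sub_mul, sum_sub_distrib, Ker.k, zero_add, pow_one, hG g hg, pow_zero,
        Matrix.one_apply, ite_mul, one_mul, zero_mul, sum_ite_eq, mem_univ, if_true, huv g hg,
        sub_self]
    | succ s ih =>
      simp only [e, sum_mul]
      rw [sum_comm, ← ih]
      refine sum_congr rfl fun x _ => ?_
      rw [← hG g hg x, mul_sum]
      exact sum_congr rfl fun w _ => by rw [κ.K_symm.apply x w]; ring
  have g2 : ∀ s, ∑ w, f s w ^ 2 ≤ 2 * (1 - η / 3) ^ s := by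
    intro s
    induction s with
    | zero =>
      have : ∑ w, f 0 w ^ 2 ≤ ∑ w, (κ.k 0 v w + κ.k (0 + 1) u w) := sum_le_sum fun w _ => by
        simp only [hf]
        nlinarith [κ.k_nonneg 0 v w, κ.k_nonneg (0 + 1) u w, κ.k_le_one 0 v w,
          κ.k_le_one (0 + 1) u w]
      rw [sum_add_distrib, κ.k_sum, κ.k_sum] at this
      linarith
    | succ s ih =>
      have g3 := sum_le_sum (s := univ) fun w _ => var_lazy κ hl (f s) w
      rw [sum_sub_distrib, ← mul_sum, sum_comm (f := fun w x => κ.K w x * f s x ^ 2)] at g3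
      simp only [← sum_mul, Ker.K_col, one_mul, ← e] at g3
      have g4 := hP (f s) (g1 s)
      have g5 := mul_le_mul_of_nonneg_left ih (show 0 ≤ 1 - η / 3 by linarith)
      rw [pow_succ']
      linarith
  have g3 : κ.tv t u v ≤ ∑ w, |f t w| := sum_le_sum fun w _ =>
    max_le (le_abs_self _) (abs_nonneg _)
  have g4 := sq_sum_le_card_mul_sum_sq (s := (univ : Finset V)) (f := fun w => |f t w|)
  simp only [sq_abs, card_univ] at g4
  have g5 := mul_le_mul_of_nonneg_left ((g2 t).trans (mul_le_mul_of_nonneg_left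
    (pow_le_pow_of_le_one (show 0 ≤ 1 - η / 3 by linarith) (by linarith) ht) (by norm_num)))
    (Nat.cast_nonneg (α := ℝ) (Fintype.card V))
  exact g3.trans (abs_le_of_sq_le_sq' (by linarith) (by norm_num)).2

end

variable {V C W : Type} [Fintype V] [DecidableEq V] [Fintype C] [DecidableEq C]

theorem wit_gap [Nonempty V] {Pm : Finset C → Prop} (h0 : Pm ∅)
    (hu : ∀ U U', Pm U → Pm U' → Disjoint U U' → Pm (U ∪ U'))
    (Ws : Finset W) (src tgt : W → V) (lab : W → Finset C) (rev : W → W) (cv : V → Finset C)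
    (hrev : ∀ w ∈ Ws, rev w ∈ Ws ∧ rev (rev w) = w ∧ src (rev w) = tgt w ∧ tgt (rev w) = src w ∧
      lab (rev w) = lab w) {r : ℕ}
    (hpm : ∀ w ∈ Ws, Pm (lab w ∪ cv (tgt w)) ∧ Disjoint (lab w) (cv (tgt w)) ∧ (lab w).card ≤ r)
    (hcv : ∀ v, (cv v).card ≤ 2 ∧ (cv v).Nonempty) {N q : ℝ} (hN : 0 < N) (hq : 0 ≤ q)
    (hout : ∀ u, 2 * ((Ws.filter (fun w => src w = u)).card : ℝ) ≤ N)
    (hhit : ∀ u b, ((Ws.filter (fun w => src w = u ∧ b ∈ lab w ∪ cv (tgt w))).card : ℝ) ≤ N * q)
    (G : (V → ℝ) → Prop) (hG : ∀ g, G g → ∀ w ∈ Ws, g (src w) = g (tgt w)) {η : ℝ}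
    (e0 : 0 ≤ η) (e1 : η ≤ 1) (hP : ∀ f : V → ℝ, (∀ g, G g → ∑ v, f v * g v = 0) →
      η * N * ∑ v, f v ^ 2 ≤ ∑ w ∈ Ws, (f (src w) - f (tgt w)) ^ 2)
    (J a0 T : ℕ) (hJ : 1 ≤ J) (ha0 : 1 ≤ a0) (hT : T = 4 ^ J * a0)
    (ha : Fintype.card V * (1 - η / 3) ^ a0 ≤ 1 / 200) {lam : ℝ} (hl1 : 1 ≤ lam)
    (hl2 : Real.log (Fintype.card V) ≤ 4 * lam)
    (hl3 : Real.exp lam * ((r + 2 : ℕ) * T ^ 2 * J) * q ≤ 1) :
    ∃ S : V → Prop, ∑ v, nind (S v) ≤ 90 * Fintype.card V / J ∧
      ∀ u v, S v → u ≠ v → (∀ g, G g → g u = g v) → ∀ B : Finset C, cv u ⊆ B → cv v ⊆ B →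
        T * (B.card + (r + 2 : ℕ) * T) * q ≤ 1 / 10 →
        ∃ Z : Finset C, Z.card ≤ 2 * ((r + 2) * T) ∧ Disjoint Z B ∧ Pm (Z ∪ cv u) ∧
          Pm (Z ∪ cv v) := by
  classical
  have hout' : ∀ u, ((Ws.filter (fun w => src w = u)).card : ℝ) / N ≤ 1 / 2 := fun u => by
    rw [div_le_iff₀ hN]; linarith [hout u]
  let κ : Ker V (Option (Finset C)) :=
    { c := wc Ws src tgt lab N
      nonneg := fun u p v => by
        cases p with
        | none =>
          simp only [wc]
          split_ifs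
          · linarith [hout' u]
          · exact le_rfl
        | some L => exact div_nonneg (Nat.cast_nonneg _) hN.le
      symm := fun u p v => by
        cases p with
        | none =>
          simp only [wc]
          by_cases h : u = v
          · rw [h]
          · rw [if_neg h, if_neg (Ne.symm h)]
        | some L =>
          simp only [wc]
          congr 2
          refine card_nbij' rev rev ?_ ?_ ?_ ?_
          · intro w hw
            obtain ⟨h1, h2, h3, h4⟩ : w ∈ Ws ∧ _ := mem_filter.1 hw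
            obtain ⟨g1, -, g3, g4, g5⟩ := hrev w h1
            exact mem_filter.2 ⟨g1, g3.trans h3, g4.trans h2, g5.trans h4⟩
          · intro w hw
            obtain ⟨h1, h2, h3, h4⟩ : w ∈ Ws ∧ _ := mem_filter.1 hw
            obtain ⟨g1, -, g3, g4, g5⟩ := hrev w h1
            exact mem_filter.2 ⟨g1, g3.trans h3, g4.trans h2, g5.trans h4⟩
          · intro w hw; exact (hrev w (mem_filter.1 hw).1).2.1
          · intro w hw; exact (hrev w (mem_filter.1 hw).1).2.1
      sum_one := fun u => by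
        have := wc_sum Ws src tgt lab N u (fun _ _ => 1)
        simp only [mul_one, sum_const, nsmul_eq_mul] at this
        rw [this]; ring }
  let cp : Option (Finset C) → Finset C := fun p => p.elim ∅ (fun L => if L.card ≤ r then L else ∅)
  have hcp : ∀ w ∈ Ws, cp (some (lab w)) = lab w := fun w hw => if_pos (hpm w hw).2.2
  have hz : ∀ u p v, 0 < κ.c u p v → Option.isNone p = true → v = u := fun u p v h hp => by
    cases p with
    | none =>
      by_contra h'
      simp only [κ, wc, if_neg (Ne.symm h')] at h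
      exact lt_irrefl _ h
    | some L => simp at hp
  have hs : ∀ u p v, 0 < κ.c u p v → ¬ Option.isNone p = true →
      Pm (cp p ∪ cv v) ∧ Disjoint (cp p) (cv v) := fun u p v h hp => by
    cases p with
    | none => simp at hp
    | some L =>
      simp only [κ, wc] at h
      obtain ⟨w, hw⟩ : (Ws.filter (fun w => src w = u ∧ tgt w = v ∧ lab w = L)).Nonempty := by
        rw [← card_pos]
        exact_mod_cast (div_pos_iff_of_pos_right hN).1 h
      obtain ⟨g1, -, rfl, rfl⟩ := mem_filter.1 hw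
      rw [hcp w g1]
      exact ⟨(hpm w g1).1, (hpm w g1).2.1⟩
  have hc : ∀ p v, (cp p ∪ cv v).card ≤ r + 2 := fun p v => by
    refine (card_union_le _ _).trans (Nat.add_le_add ?_ (hcv v).1)
    cases p with
    | none => simp [cp]
    | some L =>
      simp only [cp, Option.elim]
      split_ifs with h
      · exact h
      · simp
  have hh : Hits κ Option.isNone cp cv q := fun u B => by
    have := wc_sum Ws src tgt lab N u (fun p v => nind (Av Option.isNone cp cv p v B))
    simp only [κ]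
    rw [this, nind_pos (Q := Av _ _ _ none u B) (Or.inl rfl), mul_zero, zero_add, div_le_iff₀ hN]
    calc _ ≤ ∑ w ∈ Ws.filter (fun w => src w = u), ∑ b ∈ B,
          (if b ∈ lab w ∪ cv (tgt w) then (1 : ℝ) else 0) := by
          refine sum_le_sum fun w hw => ?_
          have h3 : ∀ b ∈ B, (0 : ℝ) ≤ if b ∈ lab w ∪ cv (tgt w) then 1 else 0 :=
            fun b _ => by split_ifs <;> norm_num
          by_cases h4 : Disjoint (lab w ∪ cv (tgt w)) B
          · rw [nind_pos (Q := Av _ _ _ _ _ B)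
              (Or.inr (by rw [hcp w (mem_filter.1 hw).1]; exact h4))]
            exact sum_nonneg h3
          · obtain ⟨b, h5, h6⟩ := not_disjoint_iff.1 h4
            have := single_le_sum h3 h6
            rw [if_pos h5] at this
            exact (nind_le_one _).trans this
      _ ≤ ∑ _b ∈ B, N * q := by
          rw [sum_comm]
          refine sum_le_sum fun b _ => ?_
          rw [sum_boole, filter_filter]
          exact hhit u b
      _ = _ := by rw [sum_const, nsmul_eq_mul]; ring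
  have hK : ∀ u (F : V → ℝ), ∑ v, κ.K u v * F v
      = (1 - (Ws.filter (fun w => src w = u)).card / N) * F u
        + (∑ w ∈ Ws.filter (fun w => src w = u), F (tgt w)) / N := fun u F => by
    rw [← wc_sum Ws src tgt lab N u (fun _ v => F v), sum_comm]
    exact sum_congr rfl fun v _ => by rw [Ker.K, sum_mul]
  have hl : ∀ u, 1 / 2 ≤ κ.K u u := fun u => by
    have := single_le_sum (f := fun p => κ.c u p u) (fun p _ => κ.nonneg u p u) (mem_univ none)
    refine le_trans ?_ this
    simp only [κ, wc, if_true]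
    linarith [hout' u]
  have htv := fun t (ht : a0 ≤ t) u v => tv_gap κ hl G (fun g hg u => by
    rw [hK, sum_congr rfl (g := fun _ => g u) fun w hw => by
      rw [← hG g hg w (mem_filter.1 hw).1, (mem_filter.1 hw).2], sum_const, nsmul_eq_mul]
    ring) e0 e1 (fun f hf => by
    simp only [hK, sub_self, ne_eq, OfNat.ofNat_ne_zero, not_false_eq_true, zero_pow, mul_zero,
      zero_add, ← sum_div]
    rw [le_div_iff₀ hN, mul_right_comm]
    refine (hP f hf).trans (le_of_eq ?_)
    rw [← sum_fiberwise (g := src)]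
    exact sum_congr rfl fun u _ => sum_congr rfl fun w hw => by rw [(mem_filter.1 hw).2])
    ha ht (u := u) (v := v)
  obtain ⟨a, t, ha', hat, htT, hw1, -⟩ := κ.exists_window a0 J ha0 hJ
  rw [← hT] at htT
  set M : ℝ := (Fintype.card V : ℝ) with hM
  have hM0 : 0 < M := by rw [hM]; exact_mod_cast Fintype.card_pos
  have hJ' : (1 : ℝ) ≤ J := by exact_mod_cast hJ
  have htT' : (t : ℝ) ≤ T := by exact_mod_cast htT
  have hr : (0 : ℝ) ≤ (r + 2 : ℕ) := Nat.cast_nonneg _
  refine ⟨fun v => Spr2 κ Option.isNone cp cv ((r + 2) * t) t v, ?_, ?_⟩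
  · have h1 := spr_avg' hz hh hq hat ((r + 2) * t) (lam := lam) (by linarith)
    rw [← hM] at h1
    have h2 : κ.ent a - κ.ent t ≤ lam * (4 * M / J) := by
      rw [← mul_div_assoc, le_div_iff₀ (by positivity)]
      have h3 := mul_le_mul_of_nonneg_left hl2 hM0.le
      linarith
    have h3 : (t : ℝ) * (M * (Real.exp lam * ((r + 2) * t : ℕ) * q)) ≤ lam * (M / J) := by
      have h4 : Real.exp lam * ((r + 2 : ℕ) * t ^ 2 * J) * q ≤ 1 := by
        refine le_trans ?_ hl3
        have := (Real.exp_pos lam).le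
        gcongr
      have h5 : (t : ℝ) * (M * (Real.exp lam * ((r + 2) * t : ℕ) * q))
          = Real.exp lam * ((r + 2 : ℕ) * t ^ 2 * J) * q * (M / J) := by
        push_cast; field_simp
      rw [h5]
      exact mul_le_mul_of_nonneg_right (by linarith) (by positivity)
    refine le_of_mul_le_mul_left (a := lam) ?_ (by linarith)
    have h5 : lam * (90 * M / J) = 10 * (2 * (lam * (4 * M / J)) + lam * (M / J)) := by
      ring
    linarith
  · intro u v hv huv hg B huB hvB hB
    obtain ⟨l1, l2, f1, f2, f3, f4, f5, f6, f7, f8⟩ := two_walks' hz hh hq hc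
      (htv t (by omega) u u fun _ _ => rfl) (htv t (by omega) u v hg) hv B hvB
      (le_trans (by gcongr) hB)
    exact exchanger' h0 hu hs hc (fun v => (hcv v).2) huv huB hvB f1 f2 (f3.trans htT)
      (f4.trans htT) f5 f6 f7 f8

end Pool.Agent.Lib.MP_356f68_co.Win
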