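import Mathlib
import Pool.Agent.Lib.MP_356f68_co.Win.Grp
import Pool.Agent.Lib.MP_356f68_co.Win.Mix
import Pool.Agent.Lib.MP_901e0d_co.Rbs.Res3

/-! From the spectral window to a Poincare inequality for moves. -/

set_option autoImplicit false
set_option linter.unusedSectionVars false

namespace Pool.Agent.Lib.MP_356f68_co.Win

open Finset Pool.Agent.Lib.MP_356f68_co.Cube Pool.Agent.Lib.MP_901e0d_co.Rbs

lemma rayleigh {V : Type} [Fintype V] [DecidableEq V] (A : Matrix V V ℝ) (hA : A.IsSymm) (c : ℝ)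
    (f : V → ℝ) (h : ∀ (g : V → ℝ) (μ : ℝ), g ≠ 0 → (∀ u, ∑ v, A u v * g v = μ * g u) →
      μ ≤ c ∨ ∑ v, f v * g v = 0) : ∑ u, f u * ∑ v, A u v * f v ≤ c * ∑ v, f v ^ 2 := by
  have hH : A.IsHermitian := by
    rw [Matrix.IsHermitian, Matrix.conjTranspose_eq_transpose_of_trivial]; exact hA
  set b := hH.eigenvectorBasis
  have e : ∀ p q : V → ℝ, ∑ i, (∑ v, p v * b i v) * (∑ v, q v * b i v) = ∑ v, p v * q v := by
    intro p q
    have := b.sum_inner_mul_inner (WithLp.toLp 2 p) (WithLp.toLp 2 q)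
    simpa [PiLp.inner_apply, mul_comm] using this
  have e2 : ∀ i u, ∑ v, A u v * b i v = hH.eigenvalues i * b i u := fun i u =>
    congrFun (hH.mulVec_eigenvectorBasis i) u
  have e3 : ∀ i, ∑ u, (∑ v, A u v * f v) * b i u = hH.eigenvalues i * ∑ v, f v * b i v := by
    intro i
    simp only [sum_mul, mul_sum]
    rw [sum_comm]
    refine sum_congr rfl fun v _ => ?_
    rw [mul_left_comm, ← e2, mul_sum]
    exact sum_congr rfl fun u _ => by rw [hA.apply u v]; ring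
  simp only [sq]
  rw [← e, ← e f f, mul_sum]
  refine sum_le_sum fun i _ => ?_
  rw [e3]
  rcases h (b i) _ (fun h0 => b.orthonormal.ne_zero i (by ext v; exact congrFun h0 v)) (e2 i)
    with g | g
  · nlinarith [mul_self_nonneg (∑ v, f v * b i v)]
  · rw [g]; simp

variable {α : Type} [Fintype α] [DecidableEq α] {L : α → α → α}

instance (x y : α) (u v : α × α) : Decidable (Mv L x y u v) := inferInstanceAs (Decidable (_ ∧ _))

/-- no eigenvalue of the move operator lies strictly between `1 - η` and `1` -/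
def Wn (L : α → α → α) (η : ℝ) : Prop :=
  ∀ (f : α × α → ℝ) (μ : ℝ), f ≠ 0 → (∀ u, ∑ x, ∑ y, ∑ v, (if Mv L x y u v then f v else 0)
    = μ * (Fintype.card α : ℝ) ^ 2 * f u) → μ = 1 ∨ μ ≤ 1 - η

/-- moves -/
abbrev Wt (α : Type) := (α × α) × (α × α) × α × α

/-- all moves -/
def Wa (L : α → α → α) : Finset (Wt α) := univ.filter (fun w => Mv L w.2.2.1 w.2.2.2 w.1 w.2.1)

/-- moves on three different rows -/
def Wg (L : α → α → α) : Finset (Wt α) :=
  (Wa L).filter (fun w => w.2.2.1 ≠ w.1.1 ∧ w.2.2.1 ≠ w.2.1.1 ∧ w.1.1 ≠ w.2.1.1)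

/-- the reverse move -/
def rv (w : Wt α) : Wt α := (w.2.1, w.1, w.2.2)

lemma mem_Wa {w : Wt α} : w ∈ Wa L ↔ Mv L w.2.2.1 w.2.2.2 w.1 w.2.1 := by simp [Wa]

lemma mv_one (hL : Lq L) (x y : α) (u : α × α) : ∃! v, Mv L x y u v := by
  obtain ⟨a, ha⟩ := (hL.col y).2 (L x u.2)
  obtain ⟨b, hb⟩ := (hL.row x).2 (L u.1 y)
  exact ⟨(a, b), ⟨ha, hb⟩, fun v h =>
    Prod.ext ((hL.col y).1 (h.1.trans ha.symm)) ((hL.row x).1 (h.2.trans hb.symm))⟩

lemma cnt_le (hL : Lq L) {β : Type} [Fintype β] (u : α × α) (X : Finset (Wt α))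
    (hX : ∀ w ∈ X, w ∈ Wa L ∧ w.1 = u) (p : Wt α → β)
    (h : ∀ w ∈ X, ∀ w' ∈ X, p w = p w' → w.2.2 = w'.2.2) : X.card ≤ Fintype.card β := by
  refine card_le_card_of_injOn (t := univ) p (fun _ _ => mem_univ _) fun w hw w' hw' e => ?_
  have h1 := h w hw w' hw' e
  have h2 := mem_Wa.1 (hX w hw).1
  have h3 := mem_Wa.1 (hX w' hw').1
  rw [(hX w hw).2, h1] at h2
  rw [(hX w' hw').2] at h3
  exact Prod.ext ((hX w hw).2.trans (hX w' hw').2.symm)
    (Prod.ext ((mv_one hL _ _ u).unique h2 h3) h1)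

lemma cnt_x (hL : Lq L) (u : α × α) (a : α) :
    ((Wa L).filter (fun w => w.1 = u ∧ w.2.2.1 = a)).card ≤ Fintype.card α :=
  cnt_le hL u _ (fun _ hw => ⟨(mem_filter.1 hw).1, (mem_filter.1 hw).2.1⟩) (fun w => w.2.2.2)
    fun _ hw _ hw' e => Prod.ext ((mem_filter.1 hw).2.2.trans (mem_filter.1 hw').2.2.symm) e

lemma cnt_y (hL : Lq L) (u : α × α) (a : α) :
    ((Wa L).filter (fun w => w.1 = u ∧ w.2.2.2 = a)).card ≤ Fintype.card α :=
  cnt_le hL u _ (fun _ hw => ⟨(mem_filter.1 hw).1, (mem_filter.1 hw).2.1⟩) (fun w => w.2.2.1)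
    fun _ hw _ hw' e => Prod.ext e ((mem_filter.1 hw).2.2.trans (mem_filter.1 hw').2.2.symm)

lemma cnt_r (hL : Lq L) (u : α × α) (a : α) :
    ((Wa L).filter (fun w => w.1 = u ∧ w.2.1.1 = a)).card ≤ Fintype.card α :=
  cnt_le hL u _ (fun _ hw => ⟨(mem_filter.1 hw).1, (mem_filter.1 hw).2.1⟩) (fun w => w.2.2.1)
    fun w hw w' hw' e => Prod.ext e ((hL.row a).1 (by
      obtain ⟨h1, h2, h3⟩ := mem_filter.1 hw
      obtain ⟨g1, g2, g3⟩ := mem_filter.1 hw'
      have h4 := (mem_Wa.1 h1).1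
      have g4 := (mem_Wa.1 g1).1
      rw [h2, h3, e] at h4
      rw [g2, g3] at g4
      exact h4.trans g4.symm))

lemma cnt_c (hL : Lq L) (u : α × α) (a : α) :
    ((Wa L).filter (fun w => w.1 = u ∧ w.2.1.2 = a)).card ≤ Fintype.card α :=
  cnt_le hL u _ (fun _ hw => ⟨(mem_filter.1 hw).1, (mem_filter.1 hw).2.1⟩) (fun w => w.2.2.1)
    fun w hw w' hw' e => Prod.ext e ((hL.row u.1).1 (by
      obtain ⟨h1, h2, h3⟩ := mem_filter.1 hw
      obtain ⟨g1, g2, g3⟩ := mem_filter.1 hw'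
      have h4 := (mem_Wa.1 h1).2
      have g4 := (mem_Wa.1 g1).2
      rw [h2, h3, e] at h4
      rw [g2, g3] at g4
      exact h4.symm.trans g4))

lemma poincare (hL : Lq L) {η : ℝ} (h : Wn L η) (hη : 12 ≤ η * Fintype.card α) (f : α × α → ℝ)
    (hf : ∀ g, Inv L g → ∑ v, f v * g v = 0) :
    η * (Fintype.card α : ℝ) ^ 2 * ∑ v, f v ^ 2 ≤ ∑ w ∈ Wg L, (f w.1 - f w.2.1) ^ 2 := by
  set n : ℝ := (Fintype.card α : ℝ) with hn
  have n0 : 0 ≤ n := Nat.cast_nonneg _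
  have n1 : n ≠ 0 := fun e => by rw [e] at hη; norm_num at hη
  let A : Matrix (α × α) (α × α) ℝ := fun u v => ∑ x, ∑ y, if Mv L x y u v then 1 else 0
  have a0 : A.IsSymm := by
    ext u v
    exact sum_congr rfl fun x _ => sum_congr rfl fun y _ =>
      if_congr ⟨Mv.symm, Mv.symm⟩ rfl rfl
  have a1 : ∀ u (F : α × α → ℝ), ∑ v, A u v * F v
      = ∑ x, ∑ y, ∑ v, if Mv L x y u v then F v else 0 := by
    intro u F
    simp only [A, sum_mul, ite_mul, one_mul, zero_mul]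
    rw [sum_comm]
    exact sum_congr rfl fun x _ => sum_comm
  have a2 : ∀ u, ∑ v, A u v = n ^ 2 := by
    intro u
    have := a1 u (fun _ => 1)
    simp only [mul_one] at this
    rw [this, sum_congr rfl (g := fun _ => n) fun x _ => by
      rw [sum_congr rfl (g := fun _ => (1 : ℝ)) fun y _ => by
        obtain ⟨v, h1, h2⟩ := mv_one hL x y u
        rw [sum_eq_single v (fun b _ hb => if_neg fun e => hb (h2 b e)) (by simp), if_pos h1]]
      simp [hn]]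
    simp [hn, sq]
  have a3 : ∀ F : α × α → ℝ, ∑ w ∈ Wa L, (F w.1 - F w.2.1) ^ 2
      = 2 * n ^ 2 * ∑ v, F v ^ 2 - 2 * ∑ u, F u * ∑ v, A u v * F v := by
    intro F
    have e1 : ∑ w ∈ Wa L, (F w.1 - F w.2.1) ^ 2 = ∑ u, ∑ v, A u v * (F u - F v) ^ 2 := by
      rw [Wa, sum_filter, Fintype.sum_prod_type]
      refine sum_congr rfl fun u _ => ?_
      rw [Fintype.sum_prod_type]
      refine sum_congr rfl fun v _ => ?_
      simp only [Fintype.sum_prod_type, A, sum_mul, ite_mul, one_mul, zero_mul]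
    have e2 : ∀ u v, A u v * (F u - F v) ^ 2
        = A u v * F u ^ 2 + A v u * F v ^ 2 - 2 * (F u * (A u v * F v)) := fun u v => by
      rw [a0.apply u v]; ring
    simp only [e1, e2, sum_sub_distrib, sum_add_distrib, ← mul_sum]
    rw [sum_comm (f := fun u v => A v u * F v ^ 2)]
    simp only [← sum_mul, a2, ← mul_sum]
    ring
  have a4 := rayleigh A a0 ((1 - η) * n ^ 2) f fun g μ g0 g1 => by
    rcases h g (μ / n ^ 2) g0 (fun u => by rw [← a1, g1, ← hn]; field_simp) with g2 | g2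
    · refine Or.inr (hf g fun x y u v huv => ?_)
      have g3 := a3 g
      rw [div_eq_one_iff_eq (by positivity)] at g2
      simp only [g1, g2, mul_left_comm _ (n ^ 2), ← sq, ← mul_sum] at g3
      have g4 := (sum_eq_zero_iff_of_nonneg (s := Wa L) (f := fun w => (g w.1 - g w.2.1) ^ 2)
        fun _ _ => sq_nonneg _).1 (by rw [g3]; ring) (u, v, x, y) (mem_Wa.2 huv)
      exact sub_eq_zero.1 (pow_eq_zero_iff two_ne_zero |>.1 g4)
    · exact Or.inl ((div_le_iff₀ (by positivity)).1 g2)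
  set D := (Wa L).filter
    (fun w => ¬ (w.2.2.1 ≠ w.1.1 ∧ w.2.2.1 ≠ w.2.1.1 ∧ w.1.1 ≠ w.2.1.1)) with hD
  have b1 : ∑ w ∈ D, f w.1 ^ 2 ≤ 3 * n * ∑ v, f v ^ 2 := by
    rw [← sum_fiberwise (g := Prod.fst), mul_sum]
    refine sum_le_sum fun u _ => ?_
    rw [sum_congr rfl (g := fun _ => f u ^ 2) fun w hw => by rw [(mem_filter.1 hw).2], sum_const,
      nsmul_eq_mul]
    refine mul_le_mul_of_nonneg_right ?_ (sq_nonneg _)
    have c1 : D.filter (fun w => w.1 = u) ⊆ (Wa L).filter (fun w => w.1 = u ∧ w.2.2.1 = u.1)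
        ∪ (Wa L).filter (fun w => w.1 = u ∧ w.2.2.2 = u.2)
        ∪ (Wa L).filter (fun w => w.1 = u ∧ w.2.1.1 = u.1) := by
      intro w hw
      obtain ⟨h1, rfl⟩ := mem_filter.1 hw
      obtain ⟨h2, h3⟩ := mem_filter.1 h1
      simp only [mem_union, mem_filter, h2, true_and]
      by_contra h4
      push Not at h4
      exact h3 ⟨h4.1.1, fun e => h4.1.2 ((hL.row _).1 (e ▸ (mem_Wa.1 h2).1)), h4.2.symm⟩
    have c2 := (card_le_card c1).trans ((card_union_le _ _).trans (Nat.add_le_add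
      ((card_union_le _ _).trans (Nat.add_le_add (cnt_x hL u _) (cnt_y hL u _))) (cnt_r hL u _)))
    have c3 : ((D.filter (fun w => w.1 = u)).card : ℝ) ≤ n + n + n := by
      rw [hn]; exact_mod_cast c2
    linarith
  have b0 : ∀ w ∈ D, rv w ∈ D := fun w hw => by
    obtain ⟨h2, h3⟩ := mem_filter.1 hw
    exact mem_filter.2 ⟨mem_Wa.2 (mem_Wa.1 h2).symm, fun e => h3 ⟨e.2.1, e.1, e.2.2.symm⟩⟩
  have b2 : ∑ w ∈ D, f w.2.1 ^ 2 = ∑ w ∈ D, f w.1 ^ 2 :=
    sum_nbij' rv rv b0 b0 (fun _ _ => rfl) (fun _ _ => rfl) (fun _ _ => rfl)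
  have b3 : ∑ w ∈ D, (f w.1 - f w.2.1) ^ 2 ≤ ∑ w ∈ D, (2 * f w.1 ^ 2 + 2 * f w.2.1 ^ 2) :=
    sum_le_sum fun w _ => by nlinarith [sq_nonneg (f w.1 + f w.2.1)]
  rw [sum_add_distrib, ← mul_sum, ← mul_sum, b2] at b3
  have b4 : ∑ w ∈ Wg L, (f w.1 - f w.2.1) ^ 2 + ∑ w ∈ D, (f w.1 - f w.2.1) ^ 2 = _ :=
    sum_filter_add_sum_filter_not _ _ _
  have b5 := mul_le_mul_of_nonneg_right (mul_le_mul_of_nonneg_right hη n0)
    (sum_nonneg (s := univ) fun v _ => sq_nonneg (f v))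
  rw [a3] at b4
  nlinarith

end Pool.Agent.Lib.MP_356f68_co.Win
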