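import Mathlib
import Pool.Agent.Lib.MP_356f68_co.Win.Ex

/-! Absorbers for triples that are edges of the abelian quotient. -/

set_option autoImplicit false
set_option linter.unusedSectionVars false

namespace Pool.Agent.Lib.MP_356f68_co.Win

open Finset Pool.Agent.Lib.MP_356f68_co.Cube Pool.Agent.Lib.MP_901e0d_co.Rbs

variable {α : Type} [Fintype α] [DecidableEq α] {L : α → α → α}

/-- the hypergraph of a square: row, symbol, column -/
def Ed (L : α → α → α) (g : Fin 3 → α) : Prop := L (g 0) (g 2) = g 1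

/-- the new vertices of a move -/
def lb (L : α → α → α) (w : Wt α) : Finset (Vx α) :=
  {(0, w.2.2.1), (2, w.2.2.2), (1, L w.1.1 w.2.2.2), (1, L w.2.1.1 w.2.2.2)}

lemma exch (hL : Lq L) (X J a0 T : ℕ) (hJ : 1800 ≤ J) (hX : 1 ≤ X) (h : Wn L (1 / X)) (hn : 8 ≤ Fintype.card α)
    (hX' : 12 * X ≤ Fintype.card α) (ha0 : 1 ≤ a0) (hT : T = 4 ^ J * a0)
    (ha : (Fintype.card α : ℝ) ^ 2 * (1 - 1 / (6 * X)) ^ a0 ≤ 1 / 200)
    (hl3 : (6 * T ^ 2 * J) ^ 2 ≤ Fintype.card α) :
    ∃ S : α × α → Prop, ∑ v, nind (S v) ≤ (Fintype.card α : ℝ) ^ 2 / 20 ∧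
      ∀ u v, S v → u ≠ v → (∀ g, Inv L g → g u = g v) → ∀ B : Finset (Vx α), lf u.1 u.2 ⊆ B →
        lf v.1 v.2 ⊆ B → 10 * (T * (B.card + 6 * T)) ≤ Fintype.card α →
        ∃ Z : Finset (Vx α), Z.card ≤ 12 * T ∧ Disjoint Z B ∧ PM3 (Ed L) (Z ∪ lf u.1 u.2) ∧
          PM3 (Ed L) (Z ∪ lf v.1 v.2) := by
  have : Nonempty α := Fintype.card_pos_iff.1 (by omega)
  set n := Fintype.card α with hn'
  have hn0 : (8 : ℝ) ≤ n := by exact_mod_cast hn
  have hX0 : (1 : ℝ) ≤ X := by exact_mod_cast hX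
  have hcard : Real.log (Fintype.card (α × α)) = 2 * Real.log n := by
    rw [Fintype.card_prod]; push_cast; rw [Real.log_mul (by linarith) (by linarith)]; ring
  have hsq : Real.exp (Real.log n / 2) * Real.exp (Real.log n / 2) = n := by
    rw [← Real.exp_add, add_halves, Real.exp_log (by linarith)]
  obtain ⟨S, h1, h2⟩ := wit_gap (Pm := PM3 (Ed L)) PM3.empty (fun U U' => PM3.union) (Wg L)
    (fun w => w.1) (fun w => w.2.1) (lb L) rv (fun v => lf v.1 v.2) (fun w hw => by
      obtain ⟨h2, h3⟩ := mem_filter.1 hw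
      refine ⟨mem_filter.2 ⟨mem_Wa.2 (mem_Wa.1 h2).symm, h3.2.1, h3.1, h3.2.2.symm⟩, rfl, rfl, rfl,
        ?_⟩
      simp only [lb, rv]
      rw [pair_comm]) (r := 4) (fun w hw => by
      obtain ⟨h2, h3, h4, h5⟩ := mem_filter.1 hw
      obtain ⟨h6, h7⟩ := mem_Wa.1 h2
      have h8 : w.2.2.2 ≠ w.2.1.2 := fun e => h3 ((hL.col _).1 (e ▸ h7))
      have h9 : L w.2.1.1 w.2.2.2 ≠ L w.1.1 w.2.2.2 := fun e => h5 ((hL.col _).1 e).symm
      refine ⟨?_, by simp [lb, lf, h4.symm, h8.symm], card_le_four⟩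
      have := (PM3.single (E := Ed L) (g := ![w.2.1.1, L w.2.1.1 w.2.2.2, w.2.2.2]) rfl).union
        (PM3.single (g := ![w.2.2.1, L w.1.1 w.2.2.2, w.2.1.2]) h7) (disjoint_tri.2 fun j => by
          fin_cases j
          exacts [h4.symm, h9, h8])
      convert this using 1
      ext b
      simp only [tri_eq, lb, lf, mem_union, mem_insert, mem_singleton]
      tauto) (fun v => ⟨card_le_two, insert_nonempty _ _⟩) (N := 2 * (n : ℝ) ^ 2) (q := 1 / n)
    (by positivity) (by positivity) (fun u => by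
      have := cnt_le hL u ((Wg L).filter (fun w => w.1 = u)) (fun w hw =>
        ⟨(mem_filter.1 (mem_filter.1 hw).1).1, (mem_filter.1 hw).2⟩) (fun w => w.2.2)
        fun _ _ _ _ e => e
      rw [Fintype.card_prod, ← hn', ← sq] at this
      exact_mod_cast Nat.mul_le_mul_left 2 this) (fun u b => by
      have g0 : 2 * (n : ℝ) ^ 2 * (1 / n) = (n + n : ℕ) := by push_cast; field_simp; ring
      rw [g0, Nat.cast_le]
      obtain ⟨j, a⟩ := b
      obtain ⟨y, hy⟩ := (hL.row u.1).2 a
      obtain ⟨x, hx⟩ := (hL.col u.2).2 a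
      fin_cases j
      · refine le_trans (card_le_card fun w hw => ?_)
          ((card_union_le _ _).trans (Nat.add_le_add (cnt_x hL u a) (cnt_r hL u a)))
        obtain ⟨g1, g2, g3⟩ := mem_filter.1 hw
        simp [lb, lf] at g3
        simp only [mem_union, mem_filter, (mem_filter.1 g1).1, g2, true_and]
        tauto
      · refine le_trans (card_le_card fun w hw => ?_)
          ((card_union_le _ _).trans (Nat.add_le_add (cnt_y hL u y) (cnt_x hL u x)))
        obtain ⟨g1, rfl, g3⟩ := mem_filter.1 hw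
        simp [lb, lf] at g3
        simp only [mem_union, mem_filter, (mem_filter.1 g1).1, true_and]
        exact g3.imp (fun e => (hL.row _).1 (e.symm.trans hy.symm)) fun e => (hL.col _).1
          ((mem_Wa.1 (mem_filter.1 g1).1).1.symm.trans (e.symm.trans hx.symm))
      · refine le_trans (card_le_card fun w hw => ?_)
          ((card_union_le _ _).trans (Nat.add_le_add (cnt_y hL u a) (cnt_c hL u a)))
        obtain ⟨g1, g2, g3⟩ := mem_filter.1 hw
        simp [lb, lf] at g3
        simp only [mem_union, mem_filter, (mem_filter.1 g1).1, g2, true_and]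
        tauto) (Inv L) (fun g hg w hw => hg _ _ _ _ (mem_Wa.1 (mem_filter.1 hw).1))
    (η := 1 / (2 * X)) (by positivity) (by rw [div_le_one (by linarith)]; linarith) (fun f hf => by
      refine le_trans (le_of_eq ?_) (poincare hL h (by
        rw [one_div_mul_eq_div, le_div_iff₀ (by linarith)]; exact_mod_cast hX') f hf)
      rw [← hn']; field_simp) J a0 T (by omega) ha0 hT (by
      refine le_trans (le_of_eq ?_) ha
      rw [Fintype.card_prod, ← hn', div_div, show 2 * (X : ℝ) * 3 = 6 * X by ring]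
      push_cast; ring) (lam := Real.log n / 2) (by
      have h1 : Real.exp 2 ≤ n := by
        have := Real.exp_one_lt_d9
        have h2 : Real.exp 2 = Real.exp 1 * Real.exp 1 := by rw [← Real.exp_add]; norm_num
        nlinarith [Real.exp_pos 1]
      have := (Real.le_log_iff_exp_le (by linarith)).2 h1
      linarith) (by rw [hcard]; linarith) (by
      have h1 : ((6 * T ^ 2 * J : ℝ)) ^ 2 ≤ Real.exp (Real.log n / 2) ^ 2 := by
        rw [sq (Real.exp _), hsq]; exact_mod_cast hl3
      have h3 := (pow_le_pow_iff_left₀ (by positivity) (Real.exp_pos _).le two_ne_zero).1 h1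
      have h4 := (mul_le_mul_of_nonneg_left h3 (Real.exp_pos _).le).trans hsq.le
      rw [← mul_div_assoc, div_le_one (by linarith)]
      push_cast
      linarith)
  refine ⟨S, h1.trans ?_, fun u v a1 a2 a3 B a4 a5 a6 => ?_⟩
  · have hJ' : (1800 : ℝ) ≤ J := by exact_mod_cast hJ
    rw [Fintype.card_prod, ← hn', div_le_div_iff₀ (by linarith) (by norm_num)]
    push_cast
    nlinarith [sq_nonneg (n : ℝ)]
  · obtain ⟨Z, g1, g2⟩ := h2 u v a1 a2 a3 B a4 a5 (by
      have : (10 * (T * (B.card + 6 * T)) : ℝ) ≤ n := by exact_mod_cast a6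
      rw [← mul_div_assoc, div_le_iff₀ (by linarith)]
      push_cast
      linarith)
    exact ⟨Z, by omega, g2⟩

/-- absorbers for the triples allowed by a labelling of the symbols -/
def Vab {A : Type} (L : α → α → α) (σ : α → A) (Bad : Finset α) (w β : ℕ) : Prop :=
  ∀ r s c : α, σ (L r c) = σ s → s ∉ Bad → ∀ B : Finset (Vx α), tri ![r, s, c] ⊆ B → B.card ≤ β →
    ∃ W : Finset (Vx α), W.card ≤ w ∧ Disjoint W B ∧ PM3 (Ed L) W ∧ PM3 (Ed L) (W ∪ tri ![r, s, c])

theorem exists_vab (hL : Lq L) {A : Type} (σ : α → A)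
    (hσ : ∀ u v : α × α, σ (L u.1 u.2) = σ (L v.1 v.2) → ∀ g, Inv L g → g u = g v)
    (X J a0 T β : ℕ) (hJ : 1800 ≤ J) (hX : 1 ≤ X) (h : Wn L (1 / X)) (hn : 8 ≤ Fintype.card α)
    (hX' : 12 * X ≤ Fintype.card α) (ha0 : 1 ≤ a0) (hT : T = 4 ^ J * a0)
    (ha : (Fintype.card α : ℝ) ^ 2 * (1 - 1 / (6 * X)) ^ a0 ≤ 1 / 200)
    (hl3 : (6 * T ^ 2 * J) ^ 2 ≤ Fintype.card α)
    (hβ : 10 * (T * (β + 2 + 6 * T)) ≤ Fintype.card α) :
    ∃ Bad : Finset α, 10 * Bad.card ≤ Fintype.card α ∧ Vab L σ Bad (12 * T + 2) β := by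
  classical
  obtain ⟨S, h1, h2⟩ := exch hL X J a0 T hJ hX h hn hX' ha0 hT ha hl3
  set n := Fintype.card α with hn'
  choose cl hcl using fun r s => (hL.row r).2 s
  set nb : α → Finset α := fun s => univ.filter (fun r => ¬ S (r, cl r s)) with hnb
  refine ⟨univ.filter (fun s => n ≤ 2 * (nb s).card), ?_, fun r s c e hs B b1 b2 => ?_⟩
  · have g1 : ∑ v, nind (S v) = ∑ s, ((nb s).card : ℝ) := by
      simp only [hnb, card_filter, Nat.cast_sum]
      rw [Fintype.sum_prod_type,
        sum_comm (f := fun s r => ((if ¬ S (r, cl r s) then 1 else 0 : ℕ) : ℝ))]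
      refine sum_congr rfl fun r _ => ?_
      rw [← (hL.row r).sum_comp fun s => ((if ¬ S (r, cl r s) then 1 else 0 : ℕ) : ℝ)]
      refine sum_congr rfl fun c _ => ?_
      rw [(hL.row r).1 (hcl r (L r c))]
      by_cases g : S (r, c)
      · rw [nind_pos g]; simp [g]
      · rw [nind_neg g]; simp [g]
    have g2 : 20 * ∑ s, (nb s).card ≤ n ^ 2 := by
      rw [g1, le_div_iff₀ (by norm_num), mul_comm] at h1
      exact_mod_cast h1
    have g3 := card_nsmul_le_sum (univ.filter (fun s => n ≤ 2 * (nb s).card))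
      (fun s => 2 * (nb s).card) n fun s hs => (mem_filter.1 hs).2
    have g4 : ∑ s ∈ univ.filter (fun s => n ≤ 2 * (nb s).card), (nb s).card ≤ ∑ s, (nb s).card :=
      sum_le_sum_of_subset (filter_subset _ _)
    rw [← mul_sum, smul_eq_mul] at g3
    refine Nat.le_of_mul_le_mul_right (c := n) ?_ (by omega)
    nlinarith
  by_cases g0 : L r c = s
  · exact ⟨∅, by simp, by simp, PM3.empty, by
      simpa using PM3.single (E := Ed L) (g := ![r, s, c]) g0⟩
  have hT1 : 1 ≤ T := by rw [hT]; exact Nat.mul_pos (by positivity) ha0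
  have g1 : β + 2 + 6 * T ≤ T * (β + 2 + 6 * T) := Nat.le_mul_of_pos_left _ hT1
  simp only [mem_filter, mem_univ, true_and, not_le] at hs
  choose rw' hrw using fun c s => (hL.col c).2 s
  obtain ⟨r', -, g2⟩ := exists_mem_notMem_of_card_lt_card (s := nb s ∪
    B.image (fun b : Vx α => if b.1 = 0 then b.2 else rw' b.2 s)) (t := univ) (by
      have := card_union_le (nb s) (B.image (fun b : Vx α => if b.1 = 0 then b.2 else rw' b.2 s))
      have := card_image_le (s := B) (f := fun b : Vx α => if b.1 = 0 then b.2 else rw' b.2 s)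
      rw [card_univ]
      omega)
  simp only [hnb, mem_union, mem_filter, mem_univ, true_and, not_or, not_not, mem_image,
    not_exists, not_and] at g2
  have g3 : Disjoint (lf r' (cl r' s)) B := by
    simp only [lf, disjoint_insert_left, disjoint_singleton_left]
    exact ⟨fun e => g2.2 _ e (by simp), fun e => g2.2 _ e (by
      simpa using (hL.col _).1 ((hrw _ s).trans (hcl r' s).symm))⟩
  rw [tri_eq] at b1 ⊢
  have g4 : lf r c ⊆ B := fun b hb => b1 (by simp only [lf, mem_insert, mem_singleton] at *; tauto)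
  obtain ⟨Z, z1, z2, z3, z4⟩ := h2 (r, c) (r', cl r' s) g2.1
    (fun e' => g0 ((congrArg (fun p : α × α => L p.1 p.2) e').trans (hcl r' s)))
    (hσ _ _ (by rw [hcl]; exact e)) (B ∪ lf r' (cl r' s)) (g4.trans subset_union_left)
    subset_union_right (by
      have := (card_union_le B (lf r' (cl r' s))).trans (Nat.add_le_add b2 card_le_two)
      exact le_trans (by gcongr) hβ)
  rw [disjoint_union_right] at z2
  refine ⟨Z ∪ lf r' (cl r' s), (card_union_le _ _).trans (Nat.add_le_add z1 card_le_two),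
    disjoint_union_left.2 ⟨z2.1, g3⟩, z4, ?_⟩
  have g5 := z3.union (PM3.single (g := ![r', s, cl r' s]) (hcl r' s)) (by
    have g6 : (1, s) ∉ Z := fun e => disjoint_left.1 z2.1 e (b1 (by simp))
    have g7 := disjoint_union_left.2 ⟨z2.2, g3.symm.mono_left g4⟩
    simp only [lf, disjoint_insert_right, disjoint_singleton_right] at g7
    simp only [tri_eq, disjoint_insert_right, disjoint_singleton_right]
    exact ⟨g7.1, by simp [g6, lf], g7.2⟩)
  convert g5 using 1
  ext b
  simp only [tri_eq, lf, mem_union, mem_insert, mem_singleton]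
  tauto

end Pool.Agent.Lib.MP_356f68_co.Win
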