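import Mathlib
import Pool.Agent.Lib.MP_356f68_co.Win.Abs

/-! A small set that absorbs one symbol with any compatible row and column of a reservoir. -/

set_option autoImplicit false
set_option linter.unusedSectionVars false

namespace Pool.Agent.Lib.MP_356f68_co.Win

open Finset Function Pool.Agent.Lib.MP_356f68_co.Cube Pool.Agent.Lib.MP_901e0d_co.Rbs

variable {α : Type} [Fintype α] [DecidableEq α] {L : α → α → α}

lemma pre_card {f : α → α} (hf : Injective f) (D : Finset α) :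
    (univ.filter (fun x => f x ∈ D)).card ≤ D.card :=
  card_le_card_of_injOn f (fun _ hx => (mem_filter.1 hx).2) hf.injOn

lemma avoid4 {f1 f2 f3 : α → α} (h1 : Injective f1) (h2 : Injective f2) (h3 : Injective f3)
    (D0 D1 D2 D3 : Finset α) (h : D0.card + D1.card + D2.card + D3.card < Fintype.card α) :
    ∃ x, x ∉ D0 ∧ f1 x ∉ D1 ∧ f2 x ∉ D2 ∧ f3 x ∉ D3 := by
  obtain ⟨x, -, hx⟩ := exists_mem_notMem_of_card_lt_card (t := univ) (s := D0 ∪
    univ.filter (fun x => f1 x ∈ D1) ∪ univ.filter (fun x => f2 x ∈ D2)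
      ∪ univ.filter (fun x => f3 x ∈ D3)) (lt_of_le_of_lt ((card_union_le _ _).trans
        (Nat.add_le_add ((card_union_le _ _).trans (Nat.add_le_add ((card_union_le _ _).trans
          (Nat.add_le_add le_rfl (pre_card h1 _))) (pre_card h2 _))) (pre_card h3 _))) h)
  exact ⟨x, by simpa [and_assoc] using hx⟩

lemma gad (hL : Lq L) (Bad : Finset α) (s0 r0 : α) (B : Finset (Vx α)) (h0 : (0, r0) ∈ B)
    (h : 4 * B.card + 2 * Bad.card + 1 < Fintype.card α) :
    ∃ g g' : Fin 3 → α, Disjoint (tri g ∪ tri g') B ∧ Ed L g ∧ Ed L g' ∧ (∀ j, g j ≠ g' j) ∧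
      L (g 0) (g' 2) = s0 ∧ L r0 (g 2) = g' 1 ∧ g 1 ∉ Bad ∧ g' 1 ∉ Bad := by
  choose cl hcl using fun r s => (hL.row r).2 s
  have c1 : ∀ s, Injective (fun r => cl r s) := fun s r r' e =>
    (hL.col (cl r s)).1 ((hcl r s).trans (by simp only at e; simp only [e, hcl]))
  have c2 : ∀ r, Injective (cl r) := fun r s s' e => by rw [← hcl r s, e, hcl]
  set D := B.image Prod.snd
  have d1 : D.card ≤ B.card := card_image_le
  have d2 : ∀ j a, a ∉ D → (j, a) ∉ B := fun j a h h' => h (mem_image_of_mem Prod.snd h')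
  obtain ⟨r1, a1, a2, -⟩ := avoid4 (c1 s0) injective_id injective_id D D ∅ ∅ (by
    simp only [card_empty]; omega)
  obtain ⟨r2, b1, b2, b3, b4⟩ := avoid4 (hL.col (cl r1 s0)).1
    ((c2 r0).comp (hL.col (cl r1 s0)).1) ((hL.row r1).1.comp ((c2 r0).comp (hL.col (cl r1 s0)).1))
    (insert r1 D) (D ∪ Bad) D (D ∪ Bad) (by
      have := card_insert_le r1 D
      have := card_union_le D Bad
      omega)
  simp only [mem_insert, mem_union, not_or, comp] at b1 b2 b3 b4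
  have e0 : r0 ∈ D := mem_image_of_mem Prod.snd h0
  refine ⟨![r1, L r1 (cl r0 (L r2 (cl r1 s0))), cl r0 (L r2 (cl r1 s0))],
    ![r2, L r2 (cl r1 s0), cl r1 s0], ?_, rfl, rfl, fun j => ?_, hcl _ _, hcl _ _, b4.2, b2.2⟩
  · simp only [tri_eq, disjoint_union_left, disjoint_insert_left, disjoint_singleton_left]
    exact ⟨⟨d2 _ _ a1, d2 _ _ b4.1, d2 _ _ b3⟩, d2 _ _ b1.2, d2 _ _ b2.1, d2 _ _ a2⟩
  · fin_cases j
    · exact Ne.symm b1.1
    · exact fun e => a1 ((hL.col _).1 (e.trans (hcl r0 _).symm) ▸ e0)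
    · exact fun e => b1.2 ((hL.col (cl r1 s0)).1
        ((congrArg (L r0) e).symm.trans (hcl r0 _)) ▸ e0)

theorem closer (hL : Lq L) {A : Type} [AddCommGroup A] (φ ψ σ : α → A)
    (h : ∀ r c, φ r + ψ c = σ (L r c)) {Bad : Finset α} {w β : ℕ} (hV : Vab L σ Bad w β)
    (hB : 10 * Bad.card ≤ Fintype.card α) (s0 : α) (Z R : Finset (Vx α)) (hZ : Z ⊆ R)
    (hs : (1, s0) ∈ R) (h1 : R.card + (6 + w) * Z.card ≤ β) (h2 : 10 * β + 10 ≤ Fintype.card α) :
    ∃ Cl : Finset (Vx α), Cl.card ≤ (6 + w) * Z.card ∧ Disjoint Cl R ∧ PM3 (Ed L) Cl ∧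
      ∀ r c, (0, r) ∈ Z → (2, c) ∈ Z → φ r + ψ c = σ s0 → PM3 (Ed L) (Cl ∪ tri ![r, s0, c]) := by
  classical
  have : Nonempty α := ⟨s0⟩
  set I := (Z.filter (fun v => v.1 = 0)).image (fun v => φ v.2) with hI
  have i1 : I.card ≤ Z.card := card_image_le.trans (card_filter_le _ _)
  rw [add_mul] at h1 ⊢
  obtain ⟨V, v1, v2⟩ := greedy I (fun a V => ∃ g g' : Fin 3 → α, V = tri g ∪ tri g' ∧ Ed L g ∧
      Ed L g' ∧ (∀ j, g j ≠ g' j) ∧ L (g 0) (g' 2) = s0 ∧ a + ψ (g 2) = σ (g' 1) ∧ g 1 ∉ Bad ∧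
      g' 1 ∉ Bad) R 6 β (fun a ha B b1 b2 => by
    obtain ⟨⟨j, r0⟩, a1, rfl⟩ := mem_image.1 ha
    obtain ⟨a2, rfl⟩ := mem_filter.1 a1
    obtain ⟨g, g', g1, g2, g3, g4, g5, g6, g7⟩ := gad hL Bad s0 r0 B (b1 (hZ a2)) (by omega)
    exact ⟨_, (card_union_le _ _).trans (by simp [card_tri]), g1, g, g', rfl, g2, g3, g4, g5,
      by rw [h, g6], g7⟩) (by omega)
  choose! g g' v3 v4 v5 v6 v7 v8 v9 v10 using fun a ha => (v1 a ha).2.2
  have p1 : ∀ a ∈ I, PM3 (Ed L) (V a) := fun a ha => v3 a ha ▸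
    (PM3.single (v4 a ha)).union (PM3.single (v5 a ha)) (disjoint_tri.2 (v6 a ha))
  have i2 := card_biUnion_le_card_mul I V 6 fun a ha => (v1 a ha).1
  have i3 : ∀ a ∈ I, ∀ j, (j, g a j) ∈ V a ∧ (j, g' a j) ∈ V a := fun a ha j => v3 a ha ▸
    ⟨mem_union_left _ (mem_tri.2 rfl), mem_union_right _ (mem_tri.2 rfl)⟩
  have i4 : ∀ a ∈ I, V a ⊆ R ∪ I.biUnion V := fun a ha =>
    (subset_biUnion_of_mem V ha).trans subset_union_right
  obtain ⟨W, w1, w2⟩ := greedy Z (fun v W => PM3 (Ed L) W ∧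
      (v.1 = 0 → PM3 (Ed L) (W ∪ tri ![v.2, g' (φ v.2) 1, g (φ v.2) 2])) ∧
      (v.1 = 2 → ∀ a ∈ I, a + ψ v.2 = σ s0 → PM3 (Ed L) (W ∪ tri ![g' a 0, g a 1, v.2])))
      (R ∪ I.biUnion V) w β (fun ⟨j, x⟩ hv B b1 b2 => by
    have b3 : (j, x) ∈ B := b1 (mem_union_left _ (hZ hv))
    by_cases c1 : j = 0
    · subst c1
      have a1 : φ x ∈ I := mem_image.2 ⟨_, mem_filter.2 ⟨hv, rfl⟩, rfl⟩
      obtain ⟨W, c2, c3, c4, c5⟩ := hV x (g' (φ x) 1) (g (φ x) 2) (by rw [← h, v8 _ a1])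
        (v10 _ a1) B (by
          simp only [tri_eq, insert_subset_iff, singleton_subset_iff]
          exact ⟨b3, b1 (i4 _ a1 (i3 _ a1 1).2), b1 (i4 _ a1 (i3 _ a1 2).1)⟩) b2
      exact ⟨W, c2, c3, c4, fun _ => c5, by simp⟩
    by_cases c2 : j = 2 ∧ σ s0 - ψ x ∈ I
    · obtain ⟨rfl, a1⟩ := c2
      obtain ⟨W, c2, c3, c4, c5⟩ := hV (g' (σ s0 - ψ x) 0) (g (σ s0 - ψ x) 1) x (by
          have e1 := h (g (σ s0 - ψ x) 0) (g (σ s0 - ψ x) 2)
          have e2 := h (g' (σ s0 - ψ x) 0) (g' (σ s0 - ψ x) 2)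
          have e3 := h (g (σ s0 - ψ x) 0) (g' (σ s0 - ψ x) 2)
          rw [v4 _ a1] at e1
          rw [v5 _ a1] at e2
          rw [v7 _ a1] at e3
          rw [← h]
          linear_combination (norm := abel) e1 + e2 - e3 - v8 _ a1)
        (v9 _ a1) B (by
          simp only [tri_eq, insert_subset_iff, singleton_subset_iff]
          exact ⟨b1 (i4 _ a1 (i3 _ a1 0).2), b1 (i4 _ a1 (i3 _ a1 1).1), b3⟩) b2
      exact ⟨W, c2, c3, c4, by simp, fun _ a _ e => eq_sub_of_add_eq e ▸ c5⟩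
    · exact ⟨∅, by simp, by simp, PM3.empty, fun e => absurd e c1,
        fun e a ha e' => absurd ⟨e, eq_sub_of_add_eq e' ▸ ha⟩ c2⟩)
    (by have := card_union_le R (I.biUnion V); omega)
  have w3 : Disjoint (Z.biUnion W) (R ∪ I.biUnion V) :=
    (disjoint_biUnion_left _ _ _).2 fun v hv => (w1 v hv).2.1
  have w4 : Disjoint (I.biUnion V) R := (disjoint_biUnion_left _ _ _).2 fun a ha => (v1 a ha).2.1
  refine ⟨I.biUnion V ∪ Z.biUnion W, ?_, disjoint_union_left.2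
    ⟨w4, w3.mono_right subset_union_left⟩, (PM3.biUnion I V p1 v2).union
    (PM3.biUnion Z W (fun v hv => (w1 v hv).2.2.1) w2) (w3.mono_right subset_union_right).symm,
    fun r c hr hc e => ?_⟩
  · have := card_union_le (I.biUnion V) (Z.biUnion W)
    have := card_biUnion_le_card_mul Z W w fun v hv => (w1 v hv).1
    rw [mul_comm w]
    omega
  have a1 : φ r ∈ I := mem_image.2 ⟨_, mem_filter.2 ⟨hr, rfl⟩, rfl⟩
  set a := φ r
  have n1 : ∀ j x, (j, x) ∈ R → g a j ≠ x ∧ g' a j ≠ x := fun j x hx =>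
    ⟨fun e => disjoint_left.1 (v1 a a1).2.1 (i3 a a1 j).1 (e ▸ hx),
      fun e => disjoint_left.1 (v1 a a1).2.1 (i3 a a1 j).2 (e ▸ hx)⟩
  have t0 : tri ![r, s0, c] ⊆ R := by
    simp only [tri_eq, insert_subset_iff, singleton_subset_iff]
    exact ⟨hZ hr, hs, hZ hc⟩
  have t1 : V a ∪ tri ![r, s0, c] = tri ![g a 0, s0, g' a 2] ∪
      (tri ![r, g' a 1, g a 2] ∪ tri ![g' a 0, g a 1, c]) := by
    rw [v3 a a1]
    ext ⟨j, x⟩
    fin_cases j <;> simp [mem_tri] <;> tauto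
  have t2 : V a ∪ tri ![r, s0, c] ⊆ R ∪ I.biUnion V :=
    union_subset (i4 a a1) (t0.trans subset_union_left)
  have t3 : Disjoint (tri ![r, g' a 1, g a 2]) (tri ![g' a 0, g a 1, c]) :=
    disjoint_tri.2 fun j => by
      fin_cases j
      exacts [(n1 0 r (hZ hr)).2.symm, (v6 a a1 1).symm, (n1 2 c (hZ hc)).1]
  have t4 : Disjoint (tri ![g a 0, s0, g' a 2])
      (tri ![r, g' a 1, g a 2] ∪ tri ![g' a 0, g a 1, c]) :=
    disjoint_union_right.2 ⟨disjoint_tri.2 fun j => by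
      fin_cases j
      exacts [(n1 0 r (hZ hr)).1, (n1 1 s0 hs).2.symm, (v6 a a1 2).symm], disjoint_tri.2 fun j => by
      fin_cases j
      exacts [v6 a a1 0, (n1 1 s0 hs).1.symm, (n1 2 c (hZ hc)).2]⟩
  rw [t1, union_subset_iff, union_subset_iff] at t2
  let Y : Vx α → Finset (Vx α) := fun v => if v = (0, r) then tri ![r, g' a 1, g a 2] else
    if v = (2, c) then tri ![g' a 0, g a 1, c] else ∅
  have y1 : ∀ v, Y v ⊆ R ∪ I.biUnion V := fun v => by
    simp only [Y]; split_ifs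
    exacts [t2.2.1, t2.2.2, empty_subset _]
  have y2 : Z.biUnion Y = tri ![r, g' a 1, g a 2] ∪ tri ![g' a 0, g a 1, c] := by
    refine Subset.antisymm (biUnion_subset.2 fun v _ => ?_) (union_subset ?_ ?_)
    · simp only [Y]; split_ifs
      exacts [subset_union_left, subset_union_right, empty_subset _]
    · simpa [Y] using subset_biUnion_of_mem Y hr
    · simpa [Y] using subset_biUnion_of_mem Y hc
  have y3 := PM3.biUnion (E := Ed L) Z (fun v => W v ∪ Y v) (fun v hv => by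
      simp only [Y]; split_ifs with e1 e2
      · subst e1; exact (w1 _ hv).2.2.2.1 rfl
      · subst e2; exact (w1 _ hv).2.2.2.2 rfl a a1 e
      · simpa using (w1 v hv).2.2.1) (fun v hv v' hv' hne => by
      refine disjoint_union_left.2 ⟨disjoint_union_right.2 ⟨w2 v hv v' hv' hne,
        (w1 v hv).2.1.mono_right (y1 v')⟩, disjoint_union_right.2
        ⟨((w1 v' hv').2.1.mono_right (y1 v)).symm, ?_⟩⟩
      simp only [Y]; split_ifs with e1 e2 e3 e4 e5 e6 <;>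
        first | exact t3 | exact t3.symm | exact disjoint_empty_left _ |
          exact disjoint_empty_right _ | exact absurd (by simp [*]) hne)
  rw [biUnion_union, y2] at y3
  have y4 := (PM3.single (E := Ed L) (g := ![g a 0, s0, g' a 2]) (v7 a a1)).union y3
    (disjoint_union_right.2 ⟨(w3.mono_right t2.1).symm, t4⟩)
  rw [union_left_comm, ← t1] at y4
  have y5 := (PM3.biUnion (I.erase a) V (fun b hb => p1 b (mem_of_mem_erase hb))
    fun b hb b' hb' => v2 b (mem_of_mem_erase hb) b' (mem_of_mem_erase hb')).union y4 (by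
      refine (disjoint_biUnion_left _ _ _).2 fun b hb => ?_
      have := mem_erase.1 hb
      exact disjoint_union_right.2 ⟨(w3.mono_right (i4 b this.2)).symm, disjoint_union_right.2
        ⟨v2 b this.2 a a1 this.1, (v1 b this.2).2.1.mono_right t0⟩⟩)
  convert y5 using 1
  conv_lhs => rw [← insert_erase a1, biUnion_insert]
  ext b
  simp only [mem_union]
  tauto

end Pool.Agent.Lib.MP_356f68_co.Win
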