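import Mathlib
import Pool.Agent.Lib.MP_901e0d_co.Rbs.ThmR

/-! An absorbing structure that is smaller by a prescribed factor. -/

set_option autoImplicit false
set_option linter.unusedSectionVars false

namespace Pool.Agent.Lib.MP_356f68_co.Win

open Finset Pool.Agent.Lib.MP_356f68_co.Cube Pool.Agent.Lib.MP_901e0d_co.Rbs

lemma prep2 : ∃ C : ℕ, ∀ (α : Type) [Fintype α] [DecidableEq α] (Y l : ℕ), 1 ≤ Y →
    l = Nat.log 2 (Fintype.card α) + 1 → C * l ^ 605 * Y ^ 396 ≤ Fintype.card α →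
    ∀ (E : (Fin 3 → α) → Prop) (U : Finset (Vx α)) (e : ℕ), Dn E U e →
    10000 * e ≤ Fintype.card α →
    ∃ (A : Fin 3 → α → α → Prop) (J : Finset (Arc α)) (R : Finset (Vx α)) (G : ℕ),
      Fam A J ∧ R ⊆ U ∧ AV J ⊆ R ∧ 1000 * (Y ^ 2 * R.card) ≤ Fintype.card α ∧
      (∃ ρ, ∀ j, sz R j = ρ) ∧
      (∀ K ⊆ J, (∀ j, sz (AV K) j = sz (AV K) 0) → PM3 E (R \ AV K)) ∧ ResK E U ∅ ∅ J G ∧
      ∀ Z : Finset (Vx α), 1000 * Z.card ≤ Fintype.card α → ∀ m,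
        (∀ j, sz ((U \ R) \ Z) j = m) →
        ∃ Y ⊆ (U \ R) \ Z, ∃ r, PM3 E Y ∧ (∀ j, sz (((U \ R) \ Z) \ Y) j = r) ∧
          9 * (r + 1) ≤ G := by
  obtain ⟨J, hJ⟩ : ∃ J : ℕ, J = 66000 := ⟨_, rfl⟩
  obtain ⟨c, hc⟩ : ∃ c : ℕ, c = 4 ^ (J ^ 2) := ⟨_, rfl⟩
  have hc1 : J ^ 2 ≤ c := hc ▸ (Nat.lt_pow_self (by norm_num)).le
  have hc2 : 1 ≤ c := by nlinarith
  refine ⟨10 ^ 13 * (80000 * (8 * (2 * 10 ^ 8) ^ 18 * (2 * c) ^ 36)) ^ 11,
    fun α _ _ Y l hY hl h0 E U e hD he => ?_⟩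
  set n := Fintype.card α with hn'
  have hl1 : 1 ≤ l := by omega
  have hl2 : n < 2 ^ l := hl ▸ Nat.lt_pow_succ_log_self (by norm_num) n
  obtain ⟨t, ht⟩ : ∃ t, t = c * (2 * l) := ⟨_, rfl⟩
  obtain ⟨k, hk⟩ : ∃ k, k = 10 ^ 8 * l * t ^ 2 * Y ^ 2 := ⟨_, rfl⟩
  obtain ⟨M, hM⟩ : ∃ M, M = 8 * l * (2 * k) ^ 18 := ⟨_, rfl⟩
  have h1 : 10 ^ 13 * (80000 * M) ^ 11 ≤ n := by
    have : 80000 * M
        = 80000 * (8 * (2 * 10 ^ 8) ^ 18 * (2 * c) ^ 36) * l ^ 55 * Y ^ 36 := by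
      rw [hM, hk, ht]; ring
    rw [this, mul_pow _ (Y ^ 36), mul_pow _ (l ^ 55), ← pow_mul, ← pow_mul, ← mul_assoc,
      ← mul_assoc]
    exact h0
  clear h0
  have hY2 : 1 ≤ Y ^ 2 := Nat.one_le_pow _ _ hY
  have ht1 : c ≤ t := ht ▸ Nat.le_mul_of_pos_right _ (by omega)
  have ht2 : t ≤ t ^ 2 := Nat.le_self_pow (by norm_num) _
  have hk1 : 10 ^ 8 * t ^ 2 ≤ k := by
    rw [hk]
    refine le_trans ?_ (Nat.le_mul_of_pos_right _ hY2)
    gcongr; exact Nat.le_mul_of_pos_right _ hl1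
  have hM1 : k ^ 4 ≤ M := by
    rw [hM]
    calc k ^ 4 ≤ k ^ 18 := Nat.pow_le_pow_right (by omega) (by norm_num)
      _ ≤ (2 * k) ^ 18 := Nat.pow_le_pow_left (by omega) _
      _ ≤ _ := Nat.le_mul_of_pos_left _ (by omega)
  have hk3 : k ≤ k ^ 4 := Nat.le_self_pow (by norm_num) _
  have hM2 : 10 ^ 13 * (80000 * M) ≤ n :=
    (Nat.mul_le_mul_left _ (Nat.le_self_pow (by norm_num) _)).trans h1
  have : Nonempty α := Fintype.card_pos_iff.1 (by omega)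
  obtain ⟨β, hβ⟩ : ∃ β, β = n / (400 * t) := ⟨_, rfl⟩
  have hβ1 : β * (400 * t) ≤ n := hβ ▸ Nat.div_mul_le_self _ _
  have hβ2 : β * 400 ≤ β * (400 * t) := Nat.mul_le_mul_left _ (by omega)
  obtain ⟨d, hd⟩ : ∃ d, d = n / 100 := ⟨_, rfl⟩
  have hd4 : e ≤ d := by omega
  obtain ⟨A, a1, a2, a3, a4⟩ := frame hD J (2 * l) t β d (by omega) (by omega) (by rw [ht, hc])
    (by omega) (by
      have h2 : Real.log n ≤ Real.log (2 ^ l) :=
        Real.log_le_log (by exact_mod_cast (by omega : 0 < n)) (by exact_mod_cast hl2.le)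
      rw [Real.log_pow] at h2
      have h3 := mul_le_mul_of_nonneg_left Real.log_two_lt_d9.le (Nat.cast_nonneg (α := ℝ) l)
      have h4 : (0 : ℝ) ≤ l := Nat.cast_nonneg _
      push_cast
      linarith) (by
      calc (324 * t ^ 2 * J ^ 2) ^ 2 ≤ (k * k) ^ 2 :=
            Nat.pow_le_pow_left (Nat.mul_le_mul (by omega) (by omega)) _
        _ = k ^ 4 := by ring
        _ ≤ n := by omega) (by
      have e1 : (24 * e + 400) * J = 1584000 * e + 26400000 := by rw [hJ]; ring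
      have e2 : d * J = 66000 * d := by rw [hJ]; ring
      omega) (by
      have : 180 * (t * (β + 6 + 126 * t)) = 180 * (β * t) + 1080 * t + 22680 * t ^ 2 := by ring
      have : β * (400 * t) = 400 * (β * t) := by ring
      omega) (by omega)
  have hirr : ∀ c a, ¬ A c a a := fun c a h => (a3 c a a h).1 rfl
  obtain ⟨G, hG⟩ : ∃ G, G = n / (1000 * M) := ⟨_, rfl⟩
  have hG1 : 1000 * (G * M) ≤ n := by
    have := Nat.div_mul_le_self n (1000 * M)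
    rw [← hG] at this
    exact le_trans (le_of_eq (by ring)) this
  have hG3 : G ≤ G * M := Nat.le_mul_of_pos_right _ (by omega)
  obtain ⟨S, s1, s2, s3⟩ := exists_res3 (ρ := α × α × (Fin 3 → α)) a1 hirr
    (fun r K => lf r.1 r.2.1 ∪ tri r.2.2 ⊆ U → Disjoint (lf r.1 r.2.1) (tri r.2.2) →
      ∃ y ∉ (∅ : Finset α), ∃ y' ∉ (∅ : Finset α), lf y y' ⊆ AV K ∧
        PM3 E ((lf r.1 r.2.1 ∪ (tri r.2.2 ∪ AV K)) \ lf y y')) G M k (7 * l + l) (by
      have f0 : Fam A (∅ : Finset (Arc α)) := ⟨by simp, by simp⟩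
      rintro ⟨z, z', u⟩ B hB
      by_cases g : lf z z' ∪ tri u ⊆ U ∧ Disjoint (lf z z') (tri u)
      · obtain ⟨K, k1, k2, k3, k4⟩ := gadgetK (hD.mono hd4) a1 a2 hirr ∅ ∅ z z' u g.1 g.2 B (by
          rw [← hn', card_empty]
          omega)
        exact ⟨K, k1, k2, k3, fun _ _ => k4⟩
      · exact ⟨∅, f0, by simp, by simp [AV], fun h1 h2 => absurd ⟨h1, h2⟩ g⟩) (by omega) (by
      simp only [Fintype.card_prod, Fintype.card_fun, Fintype.card_fin, ← hn']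
      calc _ ≤ n * (n * n ^ 3) * (n * n) :=
            Nat.mul_le_mul_left _ (Nat.mul_le_mul (by omega) (by omega))
        _ = n ^ 7 := by ring
        _ < (2 ^ l) ^ 7 := Nat.pow_lt_pow_left hl2 (by norm_num)
        _ = 2 ^ (7 * l) := by ring
        _ ≤ _ := Nat.pow_le_pow_right (by norm_num) (by omega)) (by rw [hM]; ring)
  have hS : S.card ≤ k * S.card / 10 ^ 8 := by
    rw [Nat.le_div_iff_mul_le (by norm_num), mul_comm]
    exact Nat.mul_le_mul_right _ (by omega)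
  obtain ⟨b, hb⟩ : ∃ b, b = (14 + 128 * (108 * t + 6)) * (l * (S.card + 2)) := ⟨_, rfl⟩
  have hb1 : 10 ^ 8 * (t * (Y ^ 2 * b)) ≤ 15000 * (k * S.card) + 30000 * k := by
    have g1 : 14 + 128 * (108 * t + 6) ≤ 15000 * t := by omega
    calc _ ≤ 10 ^ 8 * (t * (Y ^ 2 * (15000 * t * (l * (S.card + 2))))) := by rw [hb]; gcongr
      _ = _ := by rw [hk]; ring
  have hb2 : Y ^ 2 * b ≤ t * (Y ^ 2 * b) := Nat.le_mul_of_pos_left _ (by omega)
  have hb3 : b ≤ β := by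
    rw [hβ, Nat.le_div_iff_mul_le (by omega)]
    have g1 : t * b ≤ t * (Y ^ 2 * b) := Nat.mul_le_mul_left _ (Nat.le_mul_of_pos_left _ hY2)
    have g2 : b * (400 * t) = 400 * (t * b) := by ring
    omega
  obtain ⟨R, r1, r2, r3, r4, r5⟩ := absorbing (β := b) (x := 0) hD.sub a1 a2 a3 (L := l)
    (fun x y h B h1 h2 => a4 x y h B h1 (h2.trans hb3)) s1 hl1 (by norm_num) (by omega) hb.ge
    (by omega)
  have z0 : ∀ j, (![0, 0, 2 * 0] : Fin 3 → ℕ) j = 0 := fun j => by fin_cases j <;> rfl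
  simp only [z0, add_zero] at r4 r5
  have r6 : Y ^ 2 * R.card ≤ Y ^ 2 * b := Nat.mul_le_mul_left _ r3
  have r7 : R.card ≤ Y ^ 2 * R.card := Nat.le_mul_of_pos_left _ hY2
  refine ⟨A, S, R, G, s1, r1, r2, by omega, r4, r5, fun z z' u h1 h2 Us hUs => ?_,
    fun Z hZ m hm => ?_⟩
  · obtain ⟨K, k1, k2, k3, k4⟩ := s3 (z, z', u) Us hUs
    exact ⟨K, k1, k2, k3, k4 h1 h2⟩
  · obtain ⟨Y, y1, r, y2, y3, y4⟩ := almost3
      (hD.restrict (V := (U \ R) \ Z) (sdiff_subset.trans sdiff_subset)) (by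
        have g1 : U \ ((U \ R) \ Z) ⊆ R ∪ Z := fun b => by
          simp only [mem_sdiff, mem_union]; tauto
        have := card_le_card g1
        have := card_union_le R Z
        omega) hm (80000 * M) (by omega) h1
    refine ⟨Y, y1, r, y2.mono fun g h _ => h.1, y3, ?_⟩
    rw [hG, Nat.le_div_iff_mul_le (by omega)]
    have : 9 * (r + 1) * (1000 * M) * 80 = 9 * (r * (80000 * M)) + 720000 * M := by ring
    omega

end Pool.Agent.Lib.MP_356f68_co.Win
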