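import Mathlib
import Pool.Agent.Lib.MP_356f68_co.Win.Close
import Pool.Agent.Lib.MP_356f68_co.Win.Prep

/-! Transversals in Latin squares without eigenvalues in a window below `1`. -/

set_option autoImplicit false
set_option linter.unusedSectionVars false
set_option linter.unnecessarySeqFocus false

namespace Pool.Agent.Lib.MP_356f68_co.Win

open Finset Function Pool.Agent.Lib.MP_356f68_co.Cube Pool.Agent.Lib.MP_901e0d_co.Rbs

section

variable {α : Type} [Fintype α] [DecidableEq α] {L : α → α → α}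

lemma dn_ed (hL : Lq L) : Dn (Ed L) (univ : Finset (Vx α)) 0 := by
  refine ⟨fun g g' h h' k hk => ?_, fun _ _ => subset_univ _,
    fun _ => ⟨∅, by simp, by simp⟩, fun ⟨i, b⟩ _ j hj => ⟨∅, by simp, fun a _ => ?_⟩⟩
  · have : g k = g' k := by
      unfold Ed at h h'
      fin_cases k
      · exact (hL.col (g 2)).1 (by
          simp only [Fin.zero_eta]; rw [h, hk 1 (by decide), hk 2 (by decide), h'])
      · simp only [Fin.mk_one]; rw [← h, ← h', hk 0 (by decide), hk 2 (by decide)]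
      · exact (hL.row (g 0)).1 (by
          simp only [Fin.reduceFinMk]; rw [h, hk 1 (by decide), hk 0 (by decide), h'])
    funext j
    by_cases e : j = k
    · rw [e, this]
    · exact hk j e
  · choose cl hcl using fun r s => (hL.row r).2 s
    choose rw' hrw using fun c s => (hL.col c).2 s
    fin_cases i <;> fin_cases j
    · exact absurd rfl hj
    · exact ⟨![b, a, cl b a], hcl _ _, rfl, rfl⟩
    · exact ⟨![b, L b a, a], rfl, rfl, rfl⟩
    · exact ⟨![a, b, cl a b], hcl _ _, rfl, rfl⟩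
    · exact absurd rfl hj
    · exact ⟨![rw' a b, b, a], hrw _ _, rfl, rfl⟩
    · exact ⟨![a, L a b, b], rfl, rfl, rfl⟩
    · exact ⟨![rw' b a, a, b], hrw _ _, rfl, rfl⟩
    · exact absurd rfl hj

/-- the weight of a vertex -/
def wt {A : Type} [AddCommGroup A] (φ ψ σ : α → A) (b : Vx α) : A :=
  ![φ b.2, -σ b.2, ψ b.2] b.1

lemma wt_tri {A : Type} [AddCommGroup A] (φ ψ σ : α → A) (g : Fin 3 → α) :
    ∑ b ∈ tri g, wt φ ψ σ b = φ (g 0) + ψ (g 2) - σ (g 1) := by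
  rw [tri, sum_image fun a _ b _ h => (Prod.ext_iff.1 h).1, Fin.sum_univ_three]
  simp only [wt, Matrix.cons_val_zero, Matrix.cons_val_one, Matrix.cons_val]
  abel

lemma wt_pm {A : Type} [AddCommGroup A] {φ ψ σ : α → A} (h : ∀ r c, φ r + ψ c = σ (L r c))
    {S : Finset (Vx α)} (hS : PM3 (Ed L) S) : ∑ b ∈ S, wt φ ψ σ b = 0 := by
  obtain ⟨M, h1, h2, rfl⟩ := hS
  rw [sum_biUnion h2]
  exact sum_eq_zero fun g hg => by rw [wt_tri, h, h1 g hg, sub_self]

lemma pm_trans (h : PM3 (Ed L) univ) : ∃ π : Equiv.Perm α, Injective (fun r => L r (π r)) := by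
  obtain ⟨M, h1, h2, h3⟩ := h
  have : ∀ r, ∃ g ∈ M, g 0 = r := fun r => by
    obtain ⟨g, a1, a2⟩ := mem_biUnion.1 (h3 ▸ mem_univ ((0, r) : Vx α))
    exact ⟨g, a1, mem_tri.1 a2⟩
  choose g g1 g2 using this
  have g3 : ∀ j, Injective (fun r => g r j) := fun j r r' e => by
    by_contra hne
    exact disjoint_tri.1 (h2 (g1 r) (g1 r') fun e' => hne (by rw [← g2 r, e', g2])) j e
  refine ⟨Equiv.ofBijective _ (Finite.injective_iff_bijective.1 (g3 2)), fun r r' e => g3 1 ?_⟩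
  have a1 := h1 _ (g1 r)
  have a2 := h1 _ (g1 r')
  rw [Ed, g2] at a1 a2
  exact a1.symm.trans (e.trans a2)

lemma trans_sum {π : Equiv.Perm α} (hπ : Injective (fun r => L r (π r))) {A : Type}
    [AddCommGroup A] (φ ψ σ : α → A) (h : ∀ r c, φ r + ψ c = σ (L r c)) :
    ∑ r, φ r + ∑ c, ψ c = ∑ s, σ s := by
  rw [← Equiv.sum_comp π ψ, ← sum_add_distrib, ← (Finite.injective_iff_bijective.1 hπ).sum_comp σ]
  exact sum_congr rfl fun r _ => h r _

lemma part {β : Type} [Fintype β] [DecidableEq β] (s : β) (C F : Finset β) :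
    Disjoint (((univ \ {s}) \ C) \ F) (C ∪ insert s F) ∧
      ((univ \ {s}) \ C) \ F ∪ (C ∪ insert s F) = univ := by
  rw [disjoint_left]
  refine ⟨fun b => ?_, eq_univ_of_forall fun b => ?_⟩ <;>
    simp only [mem_sdiff, mem_union, mem_insert, mem_singleton, mem_univ] <;> tauto

lemma part' {β : Type} [DecidableEq β] (U R C Z : Finset β) :
    (U \ R) \ (C ∪ Z) = ((U \ C) \ R) \ Z := by
  ext b; simp only [mem_sdiff, mem_union]; tauto

end

theorem window : ∃ C : ℕ, ∀ (α : Type) [Fintype α] [DecidableEq α] (X : ℕ), 1 ≤ X →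
    C * (Nat.log 2 (Fintype.card α) + 1) ^ 1001 * X ^ 396 ≤ Fintype.card α →
    ∀ L : α → α → α, Lq L → Wn L (1 / X) →
    (∀ (A : Type) [AddCommGroup A] (φ ψ σ : α → A), (∀ r c, φ r + ψ c = σ (L r c)) →
      ∑ r, φ r + ∑ c, ψ c = ∑ s, σ s) → PM3 (Ed L) univ := by
  obtain ⟨C, hC⟩ := prep2
  obtain ⟨J0, hJ⟩ : ∃ J : ℕ, 1800 ≤ J := ⟨_, le_rfl⟩
  obtain ⟨p, hp⟩ : ∃ p : ℕ, p = 396 := ⟨_, rfl⟩
  obtain ⟨p', hp'⟩ : ∃ p : ℕ, p = 605 := ⟨_, rfl⟩
  rw [← hp, ← hp'] at hC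
  rw [← hp, show 1001 = p' + p by omega]
  refine ⟨(C + 1) * (4 ^ J0 * 60) ^ p, fun α _ _ X hX hn L hL hW hS => ?_⟩
  set n := Fintype.card α with hn'
  obtain ⟨l, hl⟩ : ∃ l, l = Nat.log 2 n + 1 := ⟨_, rfl⟩
  have hl1 : 1 ≤ l := by omega
  have hl2 : n < 2 ^ l := hl ▸ Nat.lt_pow_succ_log_self (by norm_num) n
  obtain ⟨T, hT⟩ : ∃ T, T = 4 ^ J0 * (60 * X * l) := ⟨_, rfl⟩
  have t0 : (C + 1) * l ^ p' * T ^ p ≤ n := by
    rw [← hl] at hn
    refine le_trans (le_of_eq ?_) hn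
    rw [hT, show 4 ^ J0 * (60 * X * l) = 4 ^ J0 * 60 * X * l by ring, mul_pow _ l, mul_pow _ X,
      pow_add]
    ring
  have t1 : J0 ≤ 4 ^ J0 := (Nat.lt_pow_self (by norm_num)).le
  have t2 : X ≤ X * l := Nat.le_mul_of_pos_right _ hl1
  have t3 : 60 * J0 ≤ T ∧ 60 * X ≤ T := by
    rw [hT, mul_assoc]
    exact ⟨by nlinarith, by nlinarith⟩
  have t4 : T ^ 6 ≤ n := by
    refine le_trans ?_ t0
    calc T ^ 6 ≤ T ^ p := Nat.pow_le_pow_right (by omega) (by omega)
      _ ≤ _ := Nat.le_mul_of_pos_left _ (by positivity)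
  have t5 : 1000 * T ≤ T ^ 2 := by rw [sq]; exact Nat.mul_le_mul_right _ (by omega)
  have t6 : 1000 * T ^ 2 ≤ n := by
    refine le_trans ?_ t4
    rw [show T ^ 6 = T ^ 2 * T ^ 2 * T ^ 2 by ring]
    exact Nat.mul_le_mul_right _ (by nlinarith)
  have : Nonempty α := Fintype.card_pos_iff.1 (by omega)
  obtain ⟨A, iA, φ, ψ, σ, h, hσ⟩ := labels hL
  obtain ⟨β, hβ⟩ : ∃ β, β = n / (20 * T) := ⟨_, rfl⟩
  have hβ1 : 20 * (T * β) ≤ n := by rw [← mul_assoc, hβ]; exact Nat.mul_div_le _ _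
  have hβ2 : 20 * β ≤ T * β := Nat.mul_le_mul_right _ (by omega)
  obtain ⟨Bad, b1, b2⟩ := exists_vab hL σ hσ X J0 (60 * X * l) T β hJ hX hW (by omega) (by omega)
    (by rw [mul_assoc]; omega) hT (by
      have hX0 : (1 : ℝ) ≤ X := by exact_mod_cast hX
      have g1 : (1 - 1 / (6 * X) : ℝ) ^ (6 * X) ≤ 1 / 2 := by
        have g2 := Real.one_sub_div_pow_le_exp_neg (n := 6 * X) (t := 1) (by push_cast; linarith)
        push_cast at g2
        refine g2.trans ?_
        rw [Real.exp_neg, one_div]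
        exact inv_anti₀ (by norm_num) (by linarith [Real.add_one_le_exp 1])
      have g2 : (0 : ℝ) ≤ 1 - 1 / (6 * X) := by
        rw [sub_nonneg, div_le_one (by linarith)]; linarith
      have g3 : (n : ℝ) ≤ 2 ^ l := by exact_mod_cast hl2.le
      have g4 : (2 : ℝ) ≤ 2 ^ l := le_self_pow₀ (by norm_num) (by omega)
      calc _ ≤ ((2 : ℝ) ^ l) ^ 2 * (1 / 2) ^ (l * 10) := by
            rw [show 60 * X * l = 6 * X * (l * 10) by ring, pow_mul]
            gcongr
        _ = 1 / (2 ^ l) ^ 8 := by rw [pow_mul, one_div_pow]; field_simp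
        _ ≤ _ := one_div_le_one_div_of_le (by norm_num)
            (le_trans (by norm_num) (pow_le_pow_left₀ (by norm_num) g4 8))) (by
      refine le_trans ?_ t4
      rw [show T ^ 6 = (T ^ 2 * T) ^ 2 by ring, mul_right_comm, mul_comm]
      exact Nat.pow_le_pow_left (Nat.mul_le_mul_left _ (by omega)) _) (by
      have : 10 * (T * (β + 2 + 6 * T)) = 10 * (T * β) + 20 * T + 60 * T ^ 2 := by ring
      omega)
  obtain ⟨s0⟩ := this
  set U : Finset (Vx α) := univ \ {(1, s0)} with hU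
  have u1 : ∀ j, sz U j = n - 1 + ![1, 0, 1] j := fun j => by
    have g1 := sz_sdiff (subset_univ {((1, s0) : Vx α)}) j
    rw [sz_single, sz_eq univ, ← hU] at g1
    simp only [mem_univ, filter_true, card_univ, ← hn'] at g1
    fin_cases j <;> simp at g1 ⊢ <;> omega
  obtain ⟨Ar, J, R, G, a1, r1, r2, r0, ⟨ρ, r3⟩, r4, k1, r6⟩ := hC α T l (by omega) hl
    (le_trans (by gcongr; omega) t0) _ U _ ((dn_ed hL).restrict (subset_univ U)) (by
      rw [hU, sdiff_sdiff_right_self, inf_eq_inter, univ_inter, card_singleton]; omega)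
  have c0 := card_le_card r2
  have c1 : (6 + (12 * T + 2)) * (AV J).card ≤ 13 * (T * R.card) :=
    (Nat.mul_le_mul (by omega) c0).trans (mul_assoc _ _ _).le
  have c2 : 1000 * (T * R.card) ≤ T ^ 2 * R.card := by
    rw [← mul_assoc]; exact Nat.mul_le_mul_right _ t5
  have c3 : R.card ≤ T * R.card := Nat.le_mul_of_pos_left _ (by omega)
  obtain ⟨Cl, l1, l2, l3, l4⟩ := closer hL φ ψ σ h b2 b1 s0 (AV J) (insert (1, s0) R)
    (r2.trans (subset_insert _ _)) (mem_insert_self _ _) (by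
      have g1 := card_insert_le (1, s0) R
      refine le_trans (show _ ≤ 14 * (T * R.card) + 1 by omega) ?_
      rw [hβ, Nat.le_div_iff_mul_le (by omega)]
      have : (14 * (T * R.card) + 1) * (20 * T) = 280 * (T ^ 2 * R.card) + 20 * T := by ring
      omega) (by omega)
  rw [disjoint_insert_right] at l2
  obtain ⟨κ, hκ⟩ := l3.bal
  have l5 : Cl ⊆ U := fun b hb => mem_sdiff.2 ⟨mem_univ _, fun e => l2.1 (mem_singleton.1 e ▸ hb)⟩
  have l6 : R ⊆ U \ Cl := subset_sdiff.2 ⟨r1, l2.2.symm⟩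
  have u2 : ∀ j, sz ((U \ Cl) \ R) j + ρ + κ = n - 1 + ![1, 0, 1] j := fun j => by
    rw [← r3 j, sz_sdiff l6, ← hκ j, sz_sdiff l5, u1]
  have u3 : ρ ≤ R.card := r3 0 ▸ sz_le_card R 0
  have u4 : κ ≤ Cl.card := hκ 0 ▸ sz_le_card Cl 0
  choose u hu using fun j => exists_of_sz (U := (U \ Cl) \ R) (j := j) (by have := u2 j; omega)
  have hu' : tri u ⊆ (U \ Cl) \ R := fun b hb => by
    have := hu b.1
    rwa [mem_tri.1 hb] at this
  choose v hv using fun j => exists_of_sz (U := ((U \ Cl) \ R) \ tri u) (j := j) (by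
    have := sz_sdiff hu' j; have := u2 j; have := sz_tri u j; omega)
  have z0 : lf (v 0) (v 2) ⊆ ((U \ Cl) \ R) \ tri u := by
    simp only [lf, insert_subset_iff, hv]; simp [hv]
  have z1 : lf (v 0) (v 2) ∪ tri u ⊆ (U \ Cl) \ R := union_subset (z0.trans sdiff_subset) hu'
  have z2 : ∀ j, sz (lf (v 0) (v 2) ∪ tri u) j = 1 + ![1, 0, 1] j := fun j => by
    rw [sz_union (sdiff_disjoint.mono_left z0), sz_tri, sz_lf, add_comm]
  set Z := lf (v 0) (v 2) ∪ tri u
  have e0 := part' U R Cl Z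
  obtain ⟨Y, y1, r, y2, y3, y4⟩ := r6 (Cl ∪ Z) (by
      have g1 := card_union_le Cl Z
      have g2 : Z.card ≤ 5 := by simp [card_sz, z2]
      omega) (n - 1 - ρ - κ - 1) (fun j => by
    have g1 := sz_sdiff z1 j; have g2 := u2 j
    rw [z2] at g1; rw [e0]
    omega)
  rw [e0] at y1 y3
  have z3 : Disjoint ((((U \ Cl) \ R) \ Z) \ Y) Z := sdiff_disjoint.mono_left sdiff_subset
  have z4 : (((U \ Cl) \ R) \ Z) \ Y ∪ Z ⊆ (U \ Cl) \ R :=
    union_subset (sdiff_subset.trans sdiff_subset) z1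
  have z5 : ∀ j, sz ((((U \ Cl) \ R) \ Z) \ Y ∪ Z) j = r + 1 + ![1, 0, 1] j := fun j => by
    rw [sz_union z3, y3, z2, add_assoc]
  obtain ⟨K, g1, -, y, y', g2, g3, g4⟩ := merge3 (D := univ.filter (fun a => (0, a) ∉ AV J))
    (D' := univ.filter (fun a => (2, a) ∉ AV J)) a1 (r2.trans r1) (fun z z' u h1 h2 Us hUs => by
      obtain ⟨K, f1, f2, f3, y, -, y', -, f4, f5⟩ := k1 z z' u h1 h2 Us hUs
      exact ⟨K, f1, f2, f3, y, by simpa using AV_mono f1 (f4 (by simp [lf])), y',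
        by simpa using AV_mono f1 (f4 (by simp [lf])), f4, f5⟩) (r + 1) y4 _
    (z4.trans (sdiff_subset.trans sdiff_subset)) z5 (sdiff_disjoint.mono z4 r2)
  obtain ⟨g5, g6⟩ := last_glue l6 ((AV_mono g1).trans r2) z1 y1 (r4 K g1 fun j => by
    obtain ⟨s, hs⟩ := g4.bal
    have g7 := fun j => sz_sdiff g3 j
    simp only [hs, sz_lf, sz_union (sdiff_disjoint.mono z4 ((AV_mono g1).trans r2)), z5] at g7
    have g8 := g7 0
    have g9 := g7 j
    fin_cases j <;> simp at g8 g9 ⊢ <;> omega) y2 g3 g4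
  have g7 : PM3 (Ed L) ((U \ Cl) \ lf y y') := g6.mono fun g h _ => h.1
  have f1 : tri ![y, s0, y'] = insert (1, s0) (lf y y') := by
    rw [tri_eq, lf, insert_comm]
  have f2 : Disjoint Cl (tri ![y, s0, y']) := by
    rw [f1, disjoint_insert_right]
    exact ⟨l2.1, (subset_sdiff.1 g5).2.symm⟩
  obtain ⟨f3, f4⟩ := part (1, s0) Cl (lf y y')
  rw [← f1, ← hU] at f3 f4
  have f5 : ∑ b, wt φ ψ σ b = 0 := by
    rw [Fintype.sum_prod_type, Fin.sum_univ_three]
    simp only [wt, Matrix.cons_val_zero, Matrix.cons_val_one, Matrix.cons_val, sum_neg_distrib,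
      ← hS A φ ψ σ h]
    abel
  rw [← f4, sum_union f3, sum_union f2, wt_pm h g7, wt_pm h l3, wt_tri, zero_add, zero_add,
    sub_eq_zero] at f5
  exact f4 ▸ g7.union (l4 y y' (by simpa using (g2 (by omega)).1)
    (by simpa using (g2 (by omega)).2) f5) f3

end Pool.Agent.Lib.MP_356f68_co.Win
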